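import Pool.Agent.H614.HK.Lin

/-! # Weyl sums over `F_q[t]`, exponent `1/k`: the chain -/

set_option autoImplicit false

open Polynomial Module

namespace Pool.Agent.H614.HK

variable {k K : Type} [Field k] [Field K] [Algebra k K] [FiniteDimensional k K]

theorem finrank_fun {k E : Type} [Field k] [AddCommGroup E] [Module k E] [FiniteDimensional k E] (n : ℕ) :
    finrank k (Fin n → E) = n * finrank k E := by
  rw [Module.finrank_pi_fintype]
  simp

variable (β : K[X] →ₗ[k] K[X] →ₗ[k] k)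

/-- The compatibility `β(c x, y) = β(x, c^Q y)`. -/
def Bal (Q : ℕ) : Prop := ∀ c x y : K[X], β (c * x) y = β x (c ^ Q * y)

omit [FiniteDimensional k K] in
theorem Bc_mul {Q : ℕ} (hβ : Bal β Q) (hQ : 1 ≤ Q) (N M j : ℕ) : ∀ (d : ℕ) (c : K[X]), c.natDegree ≤ d →
    ∀ x ∈ Bc β N M j, c * x ∈ Bc β (N + d * Q ^ (2 * j)) (M - d * Q ^ (2 * j)) j := by
  induction j with
  | zero =>
    intro d c _ x hx
    have hx' : x = 0 := by
      have : x ∈ (⊥ : Submodule k K[X]) := hx
      rwa [Submodule.mem_bot] at this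
    rw [hx', show c * (0 : K[X]) = 0 from mul_zero c]
    exact (Bc β (N + d * Q ^ (2 * 0)) (M - d * Q ^ (2 * 0)) 0).zero_mem
  | succ j ih =>
    intro d c hc x hx
    have hx' : x ∈ step β N M (Bc β N M j) := hx
    rw [mem_step] at hx'
    obtain ⟨h1, y, hy, h2⟩ := hx'
    have hy' := ih (d * Q ^ 2) (c ^ (Q ^ 2)) (by
      refine (natDegree_pow_le).trans ?_
      rw [mul_comm]
      exact Nat.mul_le_mul_right _ hc) y hy
    have e : d * Q ^ 2 * Q ^ (2 * j) = d * Q ^ (2 * (j + 1)) := by ring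
    rw [e] at hy'
    have hQ2 : Q ≤ Q ^ (2 * (j + 1)) := by
      calc Q = Q ^ 1 := (pow_one Q).symm
        _ ≤ Q ^ (2 * (j + 1)) := Nat.pow_le_pow_right hQ (by omega)
    have hQ1 : 1 ≤ Q ^ (2 * (j + 1)) := Nat.one_le_pow _ _ hQ
    show c * x ∈ step β _ _ (Bc β _ _ j)
    rw [mem_step]
    refine ⟨?_, c ^ (Q ^ 2) * y, hy', fun z hz => ?_⟩
    · refine L_mono ?_ (mul_L hc h1)
      exact Nat.add_le_add_left (Nat.le_mul_of_pos_right _ hQ1) _
    · have hz' : c ^ Q * z ∈ L k K M := by
        rcases Nat.lt_or_ge M (d * Q ^ (2 * (j + 1))) with hlt | hge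
        · have : M - d * Q ^ (2 * (j + 1)) = 0 := by omega
          rw [this] at hz
          rw [L_zero hz, mul_zero]
          exact Submodule.zero_mem _
        · have h3 : (c ^ Q).natDegree ≤ d * Q := by
            refine (natDegree_pow_le).trans ?_
            rw [mul_comm]
            exact Nat.mul_le_mul_right _ hc
          refine L_mono ?_ (mul_L h3 hz)
          have : d * Q ≤ d * Q ^ (2 * (j + 1)) := Nat.mul_le_mul_left _ hQ2
          omega
      rw [hβ c x z, h2 _ hz', hβ (c ^ Q) z y, ← pow_mul, sq]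

/-- The radical of the symmetrised form. -/
noncomputable def WW (N : ℕ) : Submodule k K[X] := L k K N ⊓ LinearMap.ker (am β N + bm β N)

omit [FiniteDimensional k K] in
theorem mem_WW {N : ℕ} {x : K[X]} : x ∈ WW β N ↔ x ∈ L k K N ∧ ∀ z ∈ L k K N, β z x + β x z = 0 := by
  unfold WW
  rw [Submodule.mem_inf, LinearMap.mem_ker]
  refine and_congr Iff.rfl ?_
  constructor
  · intro h z hz
    have := LinearMap.congr_fun h ⟨z, hz⟩
    simpa using this
  · intro h
    refine LinearMap.ext fun z => ?_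
    rw [LinearMap.add_apply, LinearMap.add_apply, am_apply, bm_apply, h z z.2, LinearMap.zero_apply]

omit [FiniteDimensional k K] in
theorem WW_le (N : ℕ) : WW β N ≤ L k K N := inf_le_left

instance fin_WW (N : ℕ) : FiniteDimensional k (WW β N) :=
  Submodule.finiteDimensional_of_le (WW_le β N)

omit [FiniteDimensional k K] in
theorem map_le (N j : ℕ) : (Bc β N N j).map (am β N) ≤ (Bc β N N j).map (am β N + bm β N) := by
  induction j with
  | zero =>
    have : Bc β N N 0 = ⊥ := rfl
    rw [this, Submodule.map_bot, Submodule.map_bot]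
  | succ j ih =>
    rintro _ ⟨y, hy, rfl⟩
    have hy' : y ∈ step β N N (Bc β N N j) := hy
    unfold step at hy'
    obtain ⟨h1, h2⟩ := hy'
    rw [SetLike.mem_coe, Submodule.mem_comap] at h2
    obtain ⟨x', hx', h3⟩ := ih h2
    refine ⟨y - x', Submodule.sub_mem _ hy (Bc_succ β N N j hx'), ?_⟩
    rw [map_sub, h3, LinearMap.add_apply, add_sub_cancel_right]

theorem dim_WB (N j : ℕ) :
    finrank k (WW β N ⊓ Bc β N N j : Submodule k K[X]) + finrank k ((Bc β N N j).map (am β N)) ≤
      finrank k (Bc β N N j) := by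
  have h1 := gl0 (am β N + bm β N) (Bc β N N j)
  have h2 : finrank k ((Bc β N N j).map (am β N)) ≤ finrank k ((Bc β N N j).map (am β N + bm β N)) :=
    Submodule.finrank_mono (map_le β N j)
  have h3 : WW β N ⊓ Bc β N N j = Bc β N N j ⊓ LinearMap.ker (am β N + bm β N) := by
    unfold WW
    ext x
    simp only [Submodule.mem_inf]
    constructor
    · rintro ⟨⟨_, h⟩, h'⟩; exact ⟨h', h⟩
    · rintro ⟨h', h⟩; exact ⟨⟨Bc_le β N N j h', h⟩, h'⟩
  rw [h3]
  omega

omit [FiniteDimensional k K] in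
theorem iso (N j : ℕ) : ∀ x ∈ Bc β N N j, ∀ y ∈ Bc β N N j, β x y = 0 := by
  induction j with
  | zero =>
    intro x hx y _
    have : x ∈ (⊥ : Submodule k K[X]) := hx
    rw [Submodule.mem_bot] at this
    rw [this, map_zero, LinearMap.zero_apply]
  | succ j ih =>
    intro x hx y hy
    have hx' : x ∈ step β N N (Bc β N N j) := hx
    have hy' : y ∈ step β N N (Bc β N N j) := hy
    rw [mem_step] at hx' hy'
    obtain ⟨hx1, x', hx2, hx3⟩ := hx'
    obtain ⟨hy1, y', hy2, hy3⟩ := hy'
    rw [hx3 y hy1, hy3 x' (Bc_le β N N j hx2)]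
    exact ih x' hx2 y' hy2

theorem dim_iso (N j : ℕ) :
    finrank k (Bc β N N j) + finrank k ((Bc β N N j).map (am β N)) ≤ N * finrank k K := by
  set U : Submodule k (L k K N) := (Bc β N N j).comap (L k K N).subtype with hU
  have h1 : finrank k U = finrank k (Bc β N N j) :=
    (Submodule.comapSubtypeEquivOfLe (Bc_le β N N j)).finrank_eq
  have h2 := Subspace.finrank_add_finrank_dualAnnihilator_eq U
  have h3 : (Bc β N N j).map (am β N) ≤ U.dualAnnihilator := by
    rintro _ ⟨y, hy, rfl⟩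
    rw [Submodule.mem_dualAnnihilator]
    intro z hz
    rw [am_apply]
    exact iso β N j z hz y hy
  have h4 := Submodule.finrank_mono h3
  rw [finrank_L] at h2
  omega

theorem dim_inj {Q : ℕ} (hβ : Bal β Q) (hQ : 1 ≤ Q) (N j : ℕ) (hN : Q * Q ^ (2 * j) ≤ N)
    (hinj : ∀ x ∈ L k K N, (∀ i < Q, ∀ z ∈ L k K N, β z (X ^ i * x) = 0) → x = 0) :
    finrank k (Bc β N N j) ≤ Q * finrank k ((Bc β N N j).map (am β N)) +
      j * ((2 * (Q * Q ^ (2 * j))) * finrank k K) := by
  set κ := Q * Q ^ (2 * j) with hκ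
  have h1 := Bc_lip β (N := N - κ) (M := N + κ) (N' := N) (M' := N) (by omega) (by omega) j
  have e : N - (N - κ) + (N + κ - N) = 2 * κ := by omega
  rw [e] at h1
  refine h1.trans (Nat.add_le_add_right ?_ _)
  -- the map into `Q` copies
  let Θ : Bc β (N - κ) (N + κ) j →ₗ[k] (Fin Q → (Bc β N N j).map (am β N)) :=
    LinearMap.pi (fun i => LinearMap.codRestrict _
      ((am β N) ∘ₗ (LinearMap.mulLeft k (X ^ (i : ℕ) : K[X])) ∘ₗ (Bc β (N - κ) (N + κ) j).subtype) (by
        intro x
        refine Submodule.mem_map_of_mem ?_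
        have h2 := Bc_mul β hβ hQ (N - κ) (N + κ) j (i : ℕ) (X ^ (i : ℕ)) (natDegree_X_pow_le _) x x.2
        refine Bc_mono β ?_ ?_ j h2
        · have : (i : ℕ) * Q ^ (2 * j) ≤ κ := Nat.mul_le_mul_right _ i.2.le
          omega
        · have : (i : ℕ) * Q ^ (2 * j) ≤ κ := Nat.mul_le_mul_right _ i.2.le
          omega))
  have hΘ : Function.Injective Θ := by
    rw [injective_iff_map_eq_zero]
    intro x hx
    have hx0 : (x : K[X]) = 0 := by
      refine hinj x (L_mono (by omega) (Bc_le β _ _ j x.2)) (fun i hi z hz => ?_)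
      have h3 : am β N (X ^ i * (x : K[X])) = 0 := by
        have h4 := congrFun hx ⟨i, hi⟩
        exact congrArg Subtype.val h4
      have h5 := LinearMap.congr_fun h3 ⟨z, hz⟩
      rwa [am_apply, LinearMap.zero_apply] at h5
    exact Subtype.ext hx0
  have h6 := LinearMap.finrank_le_finrank_of_injective hΘ
  have h7 := finrank_fun (k := k) (E := (Bc β N N j).map (am β N)) Q
  exact h6.trans_eq h7

end Pool.Agent.H614.HK
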