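import Pool.Agent.H614.HK.Elim
import Pool.Agent.H527.WS.Base
import Pool.Agent.H527.WS.Shr

/-! # Weyl sums over `F_q[t]`, exponent `1/k`: the number of elements of the radical -/

set_option autoImplicit false

open Polynomial Module

namespace Pool.Agent.H614.HK

open Pool.Agent.H527.WS (V W Nonsing PQ mem_V)

variable {K : Type} [Field K] [Fintype K]

omit [Fintype K] in
/-- A nonzero functional over the prime field which vanishes on the kernel of `ψ`. -/
theorem exists_l (p : ℕ) [Fact p.Prime] [Algebra (ZMod p) K] (ψ : AddChar K ℂ) (hψ : ψ ≠ 1) :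
    ∃ l : K →ₗ[ZMod p] ZMod p, l ≠ 0 ∧ ∀ c, ψ c = 1 → l c = 0 := by
  let U0 : AddSubgroup K :=
    { carrier := {c | ψ c = 1}
      add_mem' := by
        intro a b ha hb
        have ha' : ψ a = 1 := ha
        have hb' : ψ b = 1 := hb
        show ψ (a + b) = 1
        rw [AddChar.map_add_eq_mul, ha', hb', one_mul]
      zero_mem' := AddChar.map_zero_eq_one ψ
      neg_mem' := by
        intro a ha
        have ha' : ψ a = 1 := ha
        show ψ (-a) = 1
        rw [AddChar.map_neg_eq_inv, ha', inv_one] }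
  let U : Submodule (ZMod p) K := AddSubgroup.toZModSubmodule p U0
  have hU : U < ⊤ := by
    refine lt_top_iff_ne_top.mpr (fun h => hψ ?_)
    ext c
    have h1 : c ∈ U := by rw [h]; trivial
    exact h1
  obtain ⟨l, hl, hU'⟩ := Submodule.exists_le_ker_of_lt_top U hU
  exact ⟨l, hl, fun c hc => hU' hc⟩

omit [Fintype K] in
/-- The bilinear form `ℓ(A(x^Q y))`. -/
theorem exists_form (p j Q : ℕ) [Fact p.Prime] [CharP K p] [Algebra (ZMod p) K] (hQ : Q = p ^ j)
    (l : K →ₗ[ZMod p] ZMod p) (A : K[X] →ₗ[K] K) :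
    ∃ β : K[X] →ₗ[ZMod p] K[X] →ₗ[ZMod p] ZMod p, ∀ x y, β x y = l (A (x ^ Q * y)) := by
  have hp : 0 < p := (Fact.out : p.Prime).pos
  have hQ0 : Q ≠ 0 := by rw [hQ]; exact (pow_pos hp j).ne'
  let inner : K[X] → (K[X] →+ ZMod p) := fun x =>
    (l.toAddMonoidHom.comp A.toAddMonoidHom).comp (AddMonoidHom.mulLeft (x ^ Q))
  let outer : K[X] →+ (K[X] →ₗ[ZMod p] ZMod p) :=
    { toFun := fun x => (inner x).toZModLinearMap p
      map_zero' := by
        refine LinearMap.ext fun y => ?_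
        show l (A ((0 : K[X]) ^ Q * y)) = 0
        rw [zero_pow hQ0, zero_mul, map_zero, map_zero]
      map_add' := by
        intro x x'
        refine LinearMap.ext fun y => ?_
        show l (A ((x + x') ^ Q * y)) = l (A (x ^ Q * y)) + l (A (x' ^ Q * y))
        rw [hQ, add_pow_char_pow, add_mul, map_add, map_add] }
  exact ⟨outer.toZModLinearMap p, fun x y => rfl⟩

theorem hinj_of (p Q j : ℕ) [Fact p.Prime] [CharP K p] [Algebra (ZMod p) K] (hQ : Q = p ^ j)
    (l : K →ₗ[ZMod p] ZMod p) (hl : l ≠ 0) (A : K[X] →ₗ[K] K) (D : ℕ) (hA : Nonsing A D)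
    (x : K[X]) (hx : x ∈ V K D)
    (h : ∀ i < Q, ∀ z ∈ V K D, l (A (z ^ Q * (X ^ i * x))) = 0) : x = 0 := by
  have hp : 0 < p := (Fact.out : p.Prime).pos
  have hQ0 : 0 < Q := by rw [hQ]; exact pow_pos hp j
  -- the Frobenius is surjective
  have hsurj : ∀ c : K, ∃ d : K, d ^ Q = c := by
    have h1 : Function.Injective (iterateFrobenius K p j) := (iterateFrobenius K p j).injective
    have h2 := (Finite.injective_iff_surjective).mp h1
    intro c
    obtain ⟨d, hd⟩ := h2 c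
    refine ⟨d, ?_⟩
    rw [hQ, ← iterateFrobenius_def]
    exact hd
  refine hA x hx (fun y hy => ?_)
  -- monomials
  have hmon : ∀ m < D, A (X ^ m * x) = 0 := by
    intro m hm
    by_contra hne
    apply hl
    refine LinearMap.ext fun c => ?_
    rw [LinearMap.zero_apply]
    obtain ⟨d, hd⟩ := hsurj (c / A (X ^ m * x))
    have hz : C d * X ^ (m / Q) ∈ V K D := by
      rw [mem_V]
      refine (degree_C_mul_X_pow_le _ _).trans_lt ?_
      have : m / Q ≤ m := Nat.div_le_self _ _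
      exact_mod_cast (by omega : m / Q < D)
    have h1 := h (m % Q) (Nat.mod_lt _ hQ0) _ hz
    have h2 : (C d * X ^ (m / Q)) ^ Q * (X ^ (m % Q) * x) = (d ^ Q) • (X ^ m * x) := by
      rw [mul_pow, ← pow_mul, smul_eq_C_mul, C_pow]
      have : (X : K[X]) ^ m = X ^ (m / Q * Q) * X ^ (m % Q) := by
        rw [← pow_add, mul_comm, Nat.div_add_mod]
      rw [this]
      ring
    rw [h2, map_smul, hd, smul_eq_mul, div_mul_cancel₀ _ hne] at h1
    exact h1
  rw [y.as_sum_range, Finset.sum_mul, map_sum]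
  refine Finset.sum_eq_zero (fun m hm => ?_)
  by_cases hc : y.coeff m = 0
  · rw [hc, monomial_zero_right, zero_mul, map_zero]
  · rw [mem_V] at hy
    have h1 : m < D := by
      have h2 := le_degree_of_ne_zero hc
      exact_mod_cast h2.trans_lt hy
    rw [← C_mul_X_pow_eq_monomial, mul_assoc, ← smul_eq_C_mul, map_smul, hmon m h1, smul_zero]

/-- The number of elements of `W`. -/
theorem card_W {Q : ℕ} (hQ : PQ K Q) (J : ℕ) : ∃ C : ℕ, ∀ (ψ : AddChar K ℂ), ψ ≠ 1 → ∀ (D : ℕ) (A : K[X] →ₗ[K] K),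
    Nonsing A D → ((W ψ Q A D D).card) ^ ((Q + 1) * (J + 1)) ≤
      Fintype.card K ^ ((Q + 1) * D + (J + 1) * ((Q - 1) * D) + C) := by
  obtain ⟨p, j, hp, hchar, hj, hQp⟩ := hQ
  have hQ2 : 2 ≤ Q := by
    rw [hQp]
    calc 2 ≤ p := hp.two_le
      _ = p ^ 1 := (pow_one p).symm
      _ ≤ p ^ j := Nat.pow_le_pow_right hp.pos hj
  have := Fact.mk hp
  have := hchar
  let _ : Algebra (ZMod p) K := ZMod.algebra K p
  obtain ⟨C, hC⟩ := dim_bound (K := K) hQ2 J
  refine ⟨C, fun ψ hψ D A hA => ?_⟩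
  obtain ⟨l, hl0, hl⟩ := exists_l p ψ hψ
  obtain ⟨β, hβ⟩ := exists_form p j Q hQp l A
  have hVL : ∀ (n : ℕ) (x : K[X]), x ∈ V K n ↔ x ∈ L (ZMod p) K n := by
    intro n x
    rw [mem_V, mem_L]
  have hfin : FiniteDimensional (ZMod p) K := Module.Finite.of_finite
  have h1 := hC (ZMod p) β (fun c x y => by rw [hβ, hβ, mul_pow]; congr 2; ring) D (fun x hx h => by
    refine hinj_of p Q j hQp l hl0 A D hA x ((hVL D x).mpr hx) (fun i hi z hz => ?_)
    have := h i hi z ((hVL D z).mp hz)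
    rwa [hβ] at this)
  have hfW : Finite (WW β D) := Module.finite_of_finite (ZMod p)
  have h2 : (W ψ Q A D D).card ≤ p ^ finrank (ZMod p) (WW β D) := by
    have h3 : Nat.card (WW β D) = p ^ finrank (ZMod p) (WW β D) := by
      rw [Module.natCard_eq_pow_finrank (K := ZMod p), Nat.card_zmod]
    rw [← h3]
    have hmem : ∀ h ∈ W ψ Q A D D, h ∈ WW β D := by
      intro h hh
      unfold W at hh
      rw [Finset.mem_filter] at hh
      rw [mem_WW]
      refine ⟨(hVL D h).mp hh.1, fun z hz => ?_⟩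
      have h4 := hl _ (hh.2 z ((hVL D z).mpr hz))
      rw [map_add, map_add] at h4
      rw [hβ, hβ]
      rw [mul_comm (h ^ Q) z]
      exact h4
    let f : (W ψ Q A D D) → WW β D := fun h => ⟨h.1, hmem h.1 h.2⟩
    have hf : Function.Injective f := by
      intro a b hab
      have h9 := congrArg (fun t : WW β D => (t : K[X])) hab
      exact Subtype.ext h9
    have h5 := Nat.card_le_card_of_injective f hf
    rwa [Nat.card_eq_fintype_card, Fintype.card_coe] at h5
  have h6 : Fintype.card K = p ^ finrank (ZMod p) K := by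
    have := Module.natCard_eq_pow_finrank (K := ZMod p) (V := K)
    rwa [Nat.card_eq_fintype_card, Nat.card_zmod] at this
  calc ((W ψ Q A D D).card) ^ ((Q + 1) * (J + 1)) ≤ (p ^ finrank (ZMod p) (WW β D)) ^ ((Q + 1) * (J + 1)) :=
        Nat.pow_le_pow_left h2 _
    _ = p ^ ((Q + 1) * ((J + 1) * finrank (ZMod p) (WW β D))) := by
        rw [← pow_mul]
        congr 1
        ring
    _ ≤ p ^ (((Q + 1) * D + (J + 1) * ((Q - 1) * D) + C) * finrank (ZMod p) K) :=
        Nat.pow_le_pow_right hp.pos h1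
    _ = Fintype.card K ^ ((Q + 1) * D + (J + 1) * ((Q - 1) * D) + C) := by
        rw [h6, ← pow_mul]
        congr 1
        ring

/-- **Main bound.** -/
theorem core {Q : ℕ} (hQ : PQ K Q) (ψ : AddChar K ℂ) (hψ : ψ ≠ 1) (ε : ℝ) (hε : 0 < ε) :
    ∃ C : ℝ, 0 < C ∧ ∀ (D : ℕ) (A : K[X] →ₗ[K] K), Nonsing A D →
      ((W ψ Q A D D).card : ℝ) ≤ C * (Fintype.card K : ℝ) ^ ((D : ℝ) * (1 - 2 / (Q + 1) + ε)) := by
  obtain ⟨J, hJ⟩ := exists_nat_one_div_lt hε
  obtain ⟨C, hC⟩ := card_W hQ J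
  have hQ1 : 1 ≤ Q := by
    obtain ⟨p, j, hp, _, _, rfl⟩ := hQ
    exact Nat.one_le_pow _ _ hp.pos
  have hq1 : (1 : ℝ) < (Fintype.card K : ℝ) := by exact_mod_cast Fintype.one_lt_card (α := K)
  have hq0 : (0 : ℝ) < (Fintype.card K : ℝ) := by linarith
  set q : ℝ := (Fintype.card K : ℝ) with hq
  have hJ0 : (0 : ℝ) < (J : ℝ) + 1 := by positivity
  have hQr : (0 : ℝ) < (Q : ℝ) + 1 := by positivity
  refine ⟨q ^ ((C : ℝ) / ((Q + 1) * (J + 1))), by positivity, fun D A hA => ?_⟩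
  have h1 := hC ψ hψ D A hA
  set w := (W ψ Q A D D).card with hw
  have h2 : ((w : ℝ)) ^ ((Q + 1) * (J + 1)) ≤ q ^ ((Q + 1) * D + (J + 1) * ((Q - 1) * D) + C) := by
    rw [hq]
    exact_mod_cast h1
  set m : ℕ := (Q + 1) * (J + 1) with hm
  have hm0 : m ≠ 0 := by rw [hm]; positivity
  have hmr : (m : ℝ) = ((Q : ℝ) + 1) * (J + 1) := by rw [hm]; push_cast; ring
  have h3 : (w : ℝ) ≤ q ^ ((((Q + 1) * D + (J + 1) * ((Q - 1) * D) + C : ℕ) : ℝ) / m) := by
    refine le_of_pow_le_pow_left₀ hm0 (by positivity) ?_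
    rw [← Real.rpow_natCast (q ^ _) m, ← Real.rpow_mul hq0.le, div_mul_cancel₀ _ (by exact_mod_cast hm0),
      Real.rpow_natCast]
    exact h2
  refine h3.trans ?_
  rw [← Real.rpow_add hq0]
  refine Real.rpow_le_rpow_of_exponent_le hq1.le ?_
  rw [hmr]
  push_cast [Nat.cast_sub hQ1]
  have e1 : (((Q : ℝ) + 1) * D + (J + 1) * ((Q - 1) * D) + C) / ((Q + 1) * (J + 1))
      = C / ((Q + 1) * (J + 1)) + (D * (1 - 2 / (Q + 1)) + D * (1 / (J + 1))) := by
    field_simp
    ring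
  rw [e1]
  have e2 : (D : ℝ) * (1 / (J + 1)) ≤ D * ε := mul_le_mul_of_nonneg_left hJ.le (Nat.cast_nonneg D)
  linarith

end Pool.Agent.H614.HK
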