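import Pool.Agent.H614.HK.Cha

/-! # Weyl sums over `F_q[t]`, exponent `1/k`: elimination -/

set_option autoImplicit false

open Polynomial Module Finset

namespace Pool.Agent.H614.HK

variable {k K : Type} [Field k] [Field K] [Algebra k K] [FiniteDimensional k K]

variable (K) in
/-- The Vandermonde matrix of the nodes `X^(Q^(2r))`. -/
noncomputable def Vm (Q J : ℕ) : Matrix (Fin (J + 1)) (Fin (J + 1)) K[X] :=
  Matrix.vandermonde (fun r : Fin (J + 1) => (X : K[X]) ^ (Q ^ (2 * (r : ℕ))))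

omit [Field k] [Algebra k K] [FiniteDimensional k K] in
theorem Vm_det {Q : ℕ} (hQ : 2 ≤ Q) (J : ℕ) : (Vm K Q J).det ≠ 0 := by
  unfold Vm
  rw [Matrix.det_vandermonde_ne_zero_iff]
  intro a b hab
  have h1 : (Q ^ (2 * (a : ℕ))) = Q ^ (2 * (b : ℕ)) := by
    have := congrArg natDegree hab
    simpa using this
  have h2 := Nat.pow_right_injective hQ h1
  exact Fin.ext (by omega)

omit [Field k] [Algebra k K] [FiniteDimensional k K] in
/-- A bound for the degrees of the cofactors. -/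
theorem exists_deg (Q J : ℕ) : ∃ d : ℕ, (Vm K Q J).det.natDegree ≤ d ∧
    ∀ i r, ((Vm K Q J).adjugate i r).natDegree ≤ d := by
  refine ⟨(Vm K Q J).det.natDegree + ∑ i, ∑ r, ((Vm K Q J).adjugate i r).natDegree, by omega, fun i r => ?_⟩
  have h1 : ((Vm K Q J).adjugate i r).natDegree ≤ ∑ r, ((Vm K Q J).adjugate i r).natDegree :=
    Finset.single_le_sum (f := fun r => ((Vm K Q J).adjugate i r).natDegree) (fun _ _ => Nat.zero_le _)
      (Finset.mem_univ r)
  have h2 : ∑ r, ((Vm K Q J).adjugate i r).natDegree ≤ ∑ i, ∑ r, ((Vm K Q J).adjugate i r).natDegree :=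
    Finset.single_le_sum (f := fun i => ∑ r, ((Vm K Q J).adjugate i r).natDegree) (fun _ _ => Nat.zero_le _)
      (Finset.mem_univ i)
  omega

/-- `P_r = ∑ t^(i Q^(2r)) h_i`. -/
noncomputable def Pr (Q J : ℕ) (h : Fin (J + 1) → K[X]) (r : ℕ) : K[X] :=
  ∑ i : Fin (J + 1), (X ^ (Q ^ (2 * r))) ^ (i : ℕ) * h i

omit [Field k] [Algebra k K] [FiniteDimensional k K] in
theorem adj_Pr (Q J : ℕ) (h : Fin (J + 1) → K[X]) (i : Fin (J + 1)) :
    ∑ r : Fin (J + 1), (Vm K Q J).adjugate i r * Pr Q J h r = (Vm K Q J).det * h i := by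
  have h1 : (fun r : Fin (J + 1) => Pr Q J h r) = (Vm K Q J).mulVec h := by
    funext r
    unfold Pr Vm Matrix.mulVec dotProduct
    refine Finset.sum_congr rfl (fun i _ => ?_)
    have h2 := Matrix.vandermonde_apply (fun r : Fin (J + 1) => (X : K[X]) ^ (Q ^ (2 * (r : ℕ)))) r i
    exact congrArg (· * h i) h2.symm
  have h2 : (Vm K Q J).adjugate.mulVec ((Vm K Q J).mulVec h) = (Vm K Q J).det • h := by
    rw [Matrix.mulVec_mulVec, Matrix.adjugate_mul, Matrix.smul_mulVec, Matrix.one_mulVec]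
  have h3 := congrFun h2 i
  rw [← h1] at h3
  exact h3

variable (β : K[X] →ₗ[k] K[X] →ₗ[k] k)

omit [FiniteDimensional k K] in
theorem Pr_L {Q : ℕ} (hQ : 1 ≤ Q) (N J : ℕ) (h : Fin (J + 1) → K[X]) (hh : ∀ i, h i ∈ L k K N) (r : ℕ) (hr : r ≤ J) :
    Pr Q J h r ∈ L k K (N + J * Q ^ (2 * J)) := by
  unfold Pr
  refine Submodule.sum_mem _ (fun i _ => ?_)
  refine mul_L ?_ (hh i)
  rw [← pow_mul]
  refine (natDegree_X_pow_le _).trans ?_
  rw [mul_comm]
  refine Nat.mul_le_mul (by omega) (Nat.pow_le_pow_right hQ (by omega))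

omit [FiniteDimensional k K] in
theorem Pr_mem {Q : ℕ} (hβ : Bal β Q) (hQ : 1 ≤ Q) (N J : ℕ) (h : Fin (J + 1) → K[X])
    (hh : ∀ i, h i ∈ WW β N) (h0 : Pr Q J h J = 0) : ∀ m r : ℕ, m + r = J →
    Pr Q J h r ∈ Bc β (N + J * Q ^ (2 * J)) (N - J * Q ^ (2 * J)) m := by
  intro m
  induction m with
  | zero =>
    intro r hr
    have : r = J := by omega
    rw [this, h0]
    exact Submodule.zero_mem _
  | succ m ih =>
    intro r hr
    have ih' := ih (r + 1) (by omega)
    show Pr Q J h r ∈ step β _ _ (Bc β _ _ m)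
    rw [mem_step]
    refine ⟨Pr_L hQ N J h (fun i => (WW_le β N (hh i))) r (by omega), -Pr Q J h (r + 1),
      Submodule.neg_mem _ ih', fun z hz => ?_⟩
    unfold Pr
    rw [map_neg, map_sum, map_sum, LinearMap.sum_apply, ← Finset.sum_neg_distrib]
    refine Finset.sum_congr rfl (fun i _ => ?_)
    set c : K[X] := (X ^ (Q ^ (2 * r))) ^ (i : ℕ) with hc
    have e1 : (X ^ (Q ^ (2 * (r + 1))) : K[X]) ^ (i : ℕ) = (c ^ Q) ^ Q := by
      rw [hc]
      rw [← pow_mul, ← pow_mul, ← pow_mul, ← pow_mul]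
      congr 1
      ring
    have hdeg : (c ^ Q).natDegree ≤ J * Q ^ (2 * J) := by
      rw [hc, ← pow_mul, ← pow_mul]
      refine (natDegree_X_pow_le _).trans ?_
      calc _ = (i : ℕ) * Q ^ (2 * r + 1) := by ring
        _ ≤ J * Q ^ (2 * J) := Nat.mul_le_mul (by omega) (Nat.pow_le_pow_right hQ (by omega))
    have hz' : c ^ Q * z ∈ L k K N := by
      rcases Nat.lt_or_ge N (J * Q ^ (2 * J)) with hlt | hge
      · have : N - J * Q ^ (2 * J) = 0 := by omega
        rw [this] at hz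
        rw [L_zero hz, mul_zero]
        exact Submodule.zero_mem _
      · exact L_mono (by omega) (mul_L hdeg hz)
    have h2 := ((mem_WW β).mp (hh i)).2 _ hz'
    rw [e1, ← hβ (c ^ Q) z (h i), hβ c (h i) z]
    exact eq_neg_of_add_eq_zero_right h2

/-- The set of `x` with `det x` in the chain. -/
noncomputable def UU (Q J N u : ℕ) : Submodule k K[X] :=
  L k K N ⊓ (Bc β (N + u) (N - u) J).comap (LinearMap.mulLeft k (Vm K Q J).det)

instance fin_UU (Q J N u : ℕ) : FiniteDimensional k (UU β Q J N u) :=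
  Submodule.finiteDimensional_of_le (inf_le_left : _ ≤ L k K N)

theorem elim {Q : ℕ} (hβ : Bal β Q) (hQ : 1 ≤ Q) (J d N : ℕ)
    (hd : ∀ i r, ((Vm K Q J).adjugate i r).natDegree ≤ d) :
    (J + 1) * finrank k (WW β N) ≤ (N + J * Q ^ (2 * J)) * finrank k K +
      (J + 1) * finrank k (WW β N ⊓ UU β Q J N (J * Q ^ (2 * J) + d * Q ^ (2 * J)) : Submodule k K[X]) := by
  set u := J * Q ^ (2 * J) + d * Q ^ (2 * J) with hu
  let Φ : (Fin (J + 1) → WW β N) →ₗ[k] K[X] :=
    ∑ i : Fin (J + 1), (LinearMap.mulLeft k ((X ^ (Q ^ (2 * J)) : K[X]) ^ (i : ℕ))) ∘ₗ (WW β N).subtype ∘ₗ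
      (LinearMap.proj i)
  have hΦ : ∀ h, Φ h = Pr Q J (fun i => (h i : K[X])) J := by
    intro h
    simp only [Φ, Pr, LinearMap.sum_apply, LinearMap.comp_apply, LinearMap.mulLeft_apply,
      Submodule.subtype_apply, LinearMap.proj_apply]
  have h1 := LinearMap.finrank_range_add_finrank_ker Φ
  have h2 : finrank k (Fin (J + 1) → WW β N) = (J + 1) * finrank k (WW β N) :=
    finrank_fun (k := k) (E := WW β N) (J + 1)
  have h3 : finrank k (LinearMap.range Φ) ≤ (N + J * Q ^ (2 * J)) * finrank k K := by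
    rw [← finrank_L (k := k) (K := K)]
    refine Submodule.finrank_mono ?_
    rintro _ ⟨h, rfl⟩
    rw [hΦ]
    exact Pr_L hQ N J _ (fun i => WW_le β N (h i).2) J le_rfl
  -- the kernel
  have key : ∀ h ∈ LinearMap.ker Φ, ∀ i, ((h i : WW β N) : K[X]) ∈ WW β N ⊓ UU β Q J N u := by
    intro h hh i
    rw [LinearMap.mem_ker, hΦ] at hh
    refine ⟨(h i).2, (WW_le β N (h i).2), ?_⟩
    rw [SetLike.mem_coe, Submodule.mem_comap, LinearMap.mulLeft_apply,
      ← adj_Pr Q J (fun i => ((h i : WW β N) : K[X])) i]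
    refine Submodule.sum_mem _ (fun r _ => ?_)
    have h4 := Pr_mem β hβ hQ N J (fun i => ((h i : WW β N) : K[X])) (fun i => (h i).2) hh (J - r) r (by omega)
    have h5 := Bc_mono_j β (N + J * Q ^ (2 * J)) (N - J * Q ^ (2 * J)) (by omega : J - (r : ℕ) ≤ J) h4
    have h6 := Bc_mul β hβ hQ _ _ J d _ (hd i r) _ h5
    refine Bc_mono β ?_ ?_ J h6 <;> omega
  let Ψ : LinearMap.ker Φ →ₗ[k] (Fin (J + 1) → (WW β N ⊓ UU β Q J N u : Submodule k K[X])) :=
    { toFun := fun h i => ⟨(((h : Fin (J + 1) → WW β N) i : WW β N) : K[X]), key h.1 h.2 i⟩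
      map_add' := fun _ _ => rfl
      map_smul' := fun _ _ => rfl }
  have hΨ : Function.Injective Ψ := by
    rw [injective_iff_map_eq_zero]
    intro h hh
    apply Subtype.ext
    funext i
    have h4 := congrFun hh i
    have h5 : (((h : Fin (J + 1) → WW β N) i : WW β N) : K[X]) = 0 := congrArg Subtype.val h4
    exact Subtype.ext h5
  have : FiniteDimensional k (WW β N ⊓ UU β Q J N u : Submodule k K[X]) :=
    Submodule.finiteDimensional_of_le inf_le_left
  have h7 := LinearMap.finrank_le_finrank_of_injective hΨ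
  have h8 : finrank k (Fin (J + 1) → (WW β N ⊓ UU β Q J N u : Submodule k K[X])) =
    (J + 1) * finrank k (WW β N ⊓ UU β Q J N u : Submodule k K[X]) :=
    finrank_fun (k := k) (E := (WW β N ⊓ UU β Q J N u : Submodule k K[X])) (J + 1)
  rw [h8] at h7
  rw [h2] at h1
  omega

theorem dim_UU {Q : ℕ} (hβ : Bal β Q) (hQ : 2 ≤ Q) (J N u : ℕ)
    (hu : (Vm K Q J).det.natDegree * Q ^ (2 * J) ≤ u) :
    finrank k (WW β N ⊓ UU β Q J N u : Submodule k K[X]) ≤
      finrank k (WW β N ⊓ Bc β N N J : Submodule k K[X]) + J * ((2 * u) * finrank k K) := by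
  have h1 : Bc β N N J ≤ UU β Q J N u := by
    intro x hx
    refine ⟨Bc_le β N N J hx, ?_⟩
    rw [SetLike.mem_coe, Submodule.mem_comap, LinearMap.mulLeft_apply]
    refine Bc_mono β ?_ ?_ J (Bc_mul β hβ (by omega) N N J _ _ le_rfl x hx) <;> omega
  have h2 : finrank k (UU β Q J N u) ≤ finrank k (Bc β (N + u) (N - u) J) := by
    let f : UU β Q J N u →ₗ[k] Bc β (N + u) (N - u) J :=
      LinearMap.codRestrict _ ((LinearMap.mulLeft k (Vm K Q J).det) ∘ₗ (UU β Q J N u).subtype) (fun x => x.2.2)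
    have hf : Function.Injective f := by
      rw [injective_iff_map_eq_zero]
      intro x hx
      have h3 : (Vm K Q J).det * (x : K[X]) = 0 := congrArg Subtype.val hx
      exact Subtype.ext ((mul_eq_zero.mp h3).resolve_left (Vm_det hQ J))
    exact LinearMap.finrank_le_finrank_of_injective hf
  have h3 := Bc_lip β (N := N) (M := N) (N' := N + u) (M' := N - u) (by omega) (by omega) J
  have h4 := gl2 (P := WW β N ⊓ UU β Q J N u) (A := Bc β N N J) (C := UU β Q J N u) inf_le_right h1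
  have h5 : finrank k ((WW β N ⊓ UU β Q J N u) ⊓ Bc β N N J : Submodule k K[X]) ≤
      finrank k (WW β N ⊓ Bc β N N J : Submodule k K[X]) := by
    have : FiniteDimensional k (WW β N ⊓ Bc β N N J : Submodule k K[X]) :=
      Submodule.finiteDimensional_of_le inf_le_left
    exact Submodule.finrank_mono (inf_le_inf_right _ inf_le_left)
  have h6 : J * ((N + u - N + (N - (N - u))) * finrank k K) ≤ J * ((2 * u) * finrank k K) :=
    Nat.mul_le_mul_left _ (Nat.mul_le_mul_right _ (by omega))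
  omega

/-- **The dimension bound.** -/
theorem dim_bound {Q : ℕ} (hQ : 2 ≤ Q) (J : ℕ) : ∃ C : ℕ, ∀ (k : Type) [Field k] [Algebra k K] [FiniteDimensional k K],
    ∀ (β : K[X] →ₗ[k] K[X] →ₗ[k] k), Bal β Q → ∀ N : ℕ,
    (∀ x ∈ L k K N, (∀ i < Q, ∀ z ∈ L k K N, β z (X ^ i * x) = 0) → x = 0) →
    (Q + 1) * ((J + 1) * finrank k (WW β N)) ≤
      ((Q + 1) * N + (J + 1) * ((Q - 1) * N) + C) * finrank k K := by
  obtain ⟨d, hd1, hd2⟩ := exists_deg (K := K) Q J
  set u := J * Q ^ (2 * J) + d * Q ^ (2 * J) with hu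
  set κ := Q * Q ^ (2 * J) with hκ
  refine ⟨(Q + 1) * (J * Q ^ (2 * J)) + (Q + 1) * ((J + 1) * (J * (2 * u))) + (J + 1) * (2 * (J * (2 * κ)))
    + (Q + 1) * ((J + 1) * κ), ?_⟩
  intro k _ _ _ β hβ N hinj
  set f := finrank k K with hf
  have h1 := elim β hβ (by omega) J d N hd2
  have h2 := dim_UU β hβ hQ J N u (by
    have := Nat.mul_le_mul_right (Q ^ (2 * J)) hd1
    omega)
  rw [← hu] at h1
  have h3 := dim_WB β N J
  have h4 := dim_iso β N J
  rcases Nat.lt_or_ge N κ with hlt | hge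
  · -- small `N`
    have h5 : finrank k (WW β N) ≤ κ * f := by
      have h6 : finrank k (WW β N) ≤ finrank k (L k K N) := Submodule.finrank_mono (WW_le β N)
      rw [finrank_L] at h6
      exact h6.trans (Nat.mul_le_mul_right _ hlt.le)
    calc (Q + 1) * ((J + 1) * finrank k (WW β N)) ≤ (Q + 1) * ((J + 1) * (κ * f)) :=
          Nat.mul_le_mul_left _ (Nat.mul_le_mul_left _ h5)
      _ = ((Q + 1) * ((J + 1) * κ)) * f := by ring
      _ ≤ _ := Nat.mul_le_mul_right _ ((Nat.le_add_left _ _).trans (Nat.le_add_left _ _))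
  · have h5 := dim_inj β hβ (by omega) N J hge hinj
    rw [← hκ] at h5
    obtain ⟨R, rfl⟩ : ∃ R, Q = R + 1 := ⟨Q - 1, by omega⟩
    rw [Nat.add_sub_cancel]
    rw [← hf] at h1 h2 h4 h5
    generalize finrank k (WW β N) = w at *
    generalize finrank k (WW β N ⊓ UU β (R + 1) J N u : Submodule k K[X]) = w' at *
    generalize finrank k (WW β N ⊓ Bc β N N J : Submodule k K[X]) = w'' at *
    generalize finrank k (Bc β N N J) = x at *
    generalize finrank k ((Bc β N N J).map (am β N)) = y at *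
    clear_value f
    generalize (R + 1) ^ (2 * J) = q at *
    -- linear arithmetic
    have g1 : (J + 1) * w ≤ (N + J * q) * f + (J + 1) * (w'' + J * ((2 * u) * f)) :=
      h1.trans (Nat.add_le_add_left (Nat.mul_le_mul_left _ h2) _)
    have g2 : (R + 2) * w'' ≤ R * (N * f) + 2 * (J * ((2 * κ) * f)) := by
      have a1 := Nat.mul_le_mul_left R h4
      have a2 := Nat.mul_le_mul_left (R + 2) h3
      nlinarith [a1, a2, h5]
    have g3 := Nat.mul_le_mul_left (R + 1 + 1) g1
    have g4 := Nat.mul_le_mul_left (J + 1) g2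
    have g5 := Nat.zero_le ((R + 1 + 1) * ((J + 1) * κ) * f)
    nlinarith [g3, g4, g5]
 
end Pool.Agent.H614.HK
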