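import Pool.Agent.H614.HK.Fin

/-! # Weyl sums over `F_q[t]`, exponent `1/k`: large denominators -/

set_option autoImplicit false

open Polynomial Module

namespace Pool.Agent.H614.HK

section lin

theorem gen_ker {k E1 E2 : Type} [Field k] [AddCommGroup E1] [Module k E1] [FiniteDimensional k E1]
    [AddCommGroup E2] [Module k E2] [FiniteDimensional k E2] (n : ℕ) (Θ : E1 →ₗ[k] (Fin n → E2)) :
    finrank k E1 ≤ n * finrank k E2 + finrank k (LinearMap.ker Θ) := by
  have h7 := LinearMap.finrank_range_add_finrank_ker Θ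
  have h8 : finrank k (LinearMap.range Θ) ≤ finrank k (Fin n → E2) := Submodule.finrank_le _
  rw [finrank_fun] at h8
  omega

variable {k K : Type} [Field k] [Field K] [Algebra k K] [FiniteDimensional k K]

variable (β : K[X] →ₗ[k] K[X] →ₗ[k] k)

/-- The polynomials `x` of degree `< N` with `β(z, t^i x) = 0` for `i < Q` and all `z` of degree `< N`. -/
noncomputable def La (Q N : ℕ) : Submodule k K[X] :=
  L k K N ⊓ ⨅ i : Fin Q, LinearMap.ker ((am β N) ∘ₗ (LinearMap.mulLeft k (X ^ (i : ℕ) : K[X])))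

omit [FiniteDimensional k K] in
theorem mem_La {Q N : ℕ} {x : K[X]} :
    x ∈ La β Q N ↔ x ∈ L k K N ∧ ∀ i < Q, ∀ z ∈ L k K N, β z (X ^ i * x) = 0 := by
  unfold La
  rw [Submodule.mem_inf, Submodule.mem_iInf]
  refine and_congr Iff.rfl ?_
  constructor
  · intro h i hi z hz
    have h1 := h ⟨i, hi⟩
    rw [LinearMap.mem_ker, LinearMap.comp_apply, LinearMap.mulLeft_apply] at h1
    have h2 := LinearMap.congr_fun h1 ⟨z, hz⟩
    rwa [am_apply, LinearMap.zero_apply] at h2
  · intro h i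
    rw [LinearMap.mem_ker, LinearMap.comp_apply, LinearMap.mulLeft_apply]
    refine LinearMap.ext fun z => ?_
    rw [am_apply, LinearMap.zero_apply]
    exact h i i.2 z z.2

instance fin_La (Q N : ℕ) : FiniteDimensional k (La β Q N) :=
  Submodule.finiteDimensional_of_le (inf_le_left : _ ≤ L k K N)

theorem dim_inj' {Q : ℕ} (hβ : Bal β Q) (hQ : 1 ≤ Q) (N j : ℕ) (hN : Q * Q ^ (2 * j) ≤ N) :
    finrank k (Bc β N N j) ≤ Q * finrank k ((Bc β N N j).map (am β N)) + finrank k (La β Q N) +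
      j * ((2 * (Q * Q ^ (2 * j))) * finrank k K) := by
  set κ := Q * Q ^ (2 * j) with hκ
  have h1 := Bc_lip β (N := N - κ) (M := N + κ) (N' := N) (M' := N) (by omega) (by omega) j
  have e : N - (N - κ) + (N + κ - N) = 2 * κ := by omega
  rw [e] at h1
  refine h1.trans (Nat.add_le_add_right ?_ _)
  let Θ : Bc β (N - κ) (N + κ) j →ₗ[k] (Fin Q → (Bc β N N j).map (am β N)) :=
    LinearMap.pi (fun i => LinearMap.codRestrict _
      ((am β N) ∘ₗ (LinearMap.mulLeft k (X ^ (i : ℕ) : K[X])) ∘ₗ (Bc β (N - κ) (N + κ) j).subtype) (by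
        intro x
        refine Submodule.mem_map_of_mem ?_
        have h2 := Bc_mul β hβ hQ (N - κ) (N + κ) j (i : ℕ) (X ^ (i : ℕ)) (natDegree_X_pow_le _) x x.2
        refine Bc_mono β ?_ ?_ j h2
        · have : (i : ℕ) * Q ^ (2 * j) ≤ κ := Nat.mul_le_mul_right _ i.2.le
          omega
        · have : (i : ℕ) * Q ^ (2 * j) ≤ κ := Nat.mul_le_mul_right _ i.2.le
          omega))
  have key : ∀ x ∈ LinearMap.ker Θ, ((x : Bc β (N - κ) (N + κ) j) : K[X]) ∈ La β Q N := by
    intro x hx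
    rw [LinearMap.mem_ker] at hx
    rw [mem_La]
    refine ⟨L_mono (by omega) (Bc_le β _ _ j x.2), fun i hi z hz => ?_⟩
    have h3 : am β N (X ^ i * (x : K[X])) = 0 := by
      have h4 := congrFun hx ⟨i, hi⟩
      exact congrArg Subtype.val h4
    have h5 := LinearMap.congr_fun h3 ⟨z, hz⟩
    rwa [am_apply, LinearMap.zero_apply] at h5
  let Ψ : LinearMap.ker Θ →ₗ[k] La β Q N :=
    { toFun := fun x => ⟨((x : Bc β (N - κ) (N + κ) j) : K[X]), key x.1 x.2⟩
      map_add' := fun _ _ => rfl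
      map_smul' := fun _ _ => rfl }
  have hΨ : Function.Injective Ψ := by
    rw [injective_iff_map_eq_zero]
    intro x hx
    have h4 : ((x : Bc β (N - κ) (N + κ) j) : K[X]) = 0 := congrArg Subtype.val hx
    exact Subtype.ext (Subtype.ext h4)
  have h6 := LinearMap.finrank_le_finrank_of_injective hΨ
  have h7 := gen_ker (k := k) (E1 := Bc β (N - κ) (N + κ) j) (E2 := (Bc β N N j).map (am β N)) Q Θ
  exact h7.trans (Nat.add_le_add_left h6 _)

/-- **The dimension bound**, general version. -/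
theorem dim_bound' {Q : ℕ} (hQ : 2 ≤ Q) (J : ℕ) : ∃ C : ℕ, ∀ (k : Type) [Field k] [Algebra k K] [FiniteDimensional k K],
    ∀ (β : K[X] →ₗ[k] K[X] →ₗ[k] k), Bal β Q → ∀ N : ℕ,
    (Q + 1) * ((J + 1) * finrank k (WW β N)) ≤
      ((Q + 1) * N + (J + 1) * ((Q - 1) * N) + C) * finrank k K + 2 * ((J + 1) * finrank k (La β Q N)) := by
  obtain ⟨d, hd1, hd2⟩ := exists_deg (K := K) Q J
  set u := J * Q ^ (2 * J) + d * Q ^ (2 * J) with hu
  set κ := Q * Q ^ (2 * J) with hκ
  refine ⟨(Q + 1) * (J * Q ^ (2 * J)) + (Q + 1) * ((J + 1) * (J * (2 * u))) + (J + 1) * (2 * (J * (2 * κ)))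
    + (Q + 1) * ((J + 1) * κ), ?_⟩
  intro k _ _ _ β hβ N
  set f := finrank k K with hf
  have h1 := elim β hβ (by omega) J d N hd2
  have h2 := dim_UU β hβ hQ J N u (by
    have := Nat.mul_le_mul_right (Q ^ (2 * J)) hd1
    omega)
  rw [← hu] at h1
  have h3 := dim_WB β N J
  have h4 := dim_iso β N J
  rcases Nat.lt_or_ge N κ with hlt | hge
  · -- small `N`
    have h5 : finrank k (WW β N) ≤ κ * f := by
      have h6 : finrank k (WW β N) ≤ finrank k (L k K N) := Submodule.finrank_mono (WW_le β N)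
      rw [finrank_L] at h6
      exact h6.trans (Nat.mul_le_mul_right _ hlt.le)
    refine le_trans ?_ (Nat.le_add_right _ _)
    calc (Q + 1) * ((J + 1) * finrank k (WW β N)) ≤ (Q + 1) * ((J + 1) * (κ * f)) :=
          Nat.mul_le_mul_left _ (Nat.mul_le_mul_left _ h5)
      _ = ((Q + 1) * ((J + 1) * κ)) * f := by ring
      _ ≤ _ := Nat.mul_le_mul_right _ ((Nat.le_add_left _ _).trans (Nat.le_add_left _ _))
  · have h5 := dim_inj' β hβ (by omega) N J hge
    rw [← hκ] at h5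
    obtain ⟨R, rfl⟩ : ∃ R, Q = R + 1 := ⟨Q - 1, by omega⟩
    rw [Nat.add_sub_cancel]
    rw [← hf] at h1 h2 h4 h5
    generalize finrank k (WW β N) = w at *
    generalize finrank k (WW β N ⊓ UU β (R + 1) J N u : Submodule k K[X]) = w' at *
    generalize finrank k (WW β N ⊓ Bc β N N J : Submodule k K[X]) = w'' at *
    generalize finrank k (Bc β N N J) = x at *
    generalize finrank k ((Bc β N N J).map (am β N)) = y at *
    generalize finrank k (La β (R + 1) N) = la at *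
    clear_value f
    generalize (R + 1) ^ (2 * J) = q at *
    have g1 : (J + 1) * w ≤ (N + J * q) * f + (J + 1) * (w'' + J * ((2 * u) * f)) :=
      h1.trans (Nat.add_le_add_left (Nat.mul_le_mul_left _ h2) _)
    have g2 : (R + 2) * w'' ≤ R * (N * f) + 2 * (J * ((2 * κ) * f)) + 2 * la := by
      have a1 := Nat.mul_le_mul_left R h4
      have a2 := Nat.mul_le_mul_left (R + 2) h3
      nlinarith [a1, a2, h5]
    have g3 := Nat.mul_le_mul_left (R + 1 + 1) g1
    have g4 := Nat.mul_le_mul_left (J + 1) g2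
    have g5 := Nat.zero_le ((R + 1 + 1) * ((J + 1) * κ) * f)
    nlinarith [g3, g4, g5]

end lin

open Pool.Agent.H527.WS (V W Nonsing PQ mem_V S fn Near)

variable {K : Type} [Field K] [Fintype K]

theorem mon_of (p Q j : ℕ) [Fact p.Prime] [CharP K p] [Algebra (ZMod p) K] (hQ : Q = p ^ j)
    (l : K →ₗ[ZMod p] ZMod p) (hl : l ≠ 0) (A : K[X] →ₗ[K] K) (n : ℕ) (x : K[X])
    (h : ∀ i < Q, ∀ z ∈ V K n, l (A (z ^ Q * (X ^ i * x))) = 0) : ∀ m < Q * n, A (X ^ m * x) = 0 := by
  have hp : 0 < p := (Fact.out : p.Prime).pos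
  have hQ0 : 0 < Q := by rw [hQ]; exact pow_pos hp j
  have hsurj : ∀ c : K, ∃ d : K, d ^ Q = c := by
    have h1 : Function.Injective (iterateFrobenius K p j) := (iterateFrobenius K p j).injective
    have h2 := (Finite.injective_iff_surjective).mp h1
    intro c
    obtain ⟨d, hd⟩ := h2 c
    refine ⟨d, ?_⟩
    rw [hQ, ← iterateFrobenius_def]
    exact hd
  intro m hm
  by_contra hne
  apply hl
  refine LinearMap.ext fun c => ?_
  rw [LinearMap.zero_apply]
  obtain ⟨d, hd⟩ := hsurj (c / A (X ^ m * x))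
  have hz : C d * X ^ (m / Q) ∈ V K n := by
    rw [mem_V]
    refine (degree_C_mul_X_pow_le _ _).trans_lt ?_
    have : m / Q < n := Nat.div_lt_of_lt_mul hm
    exact_mod_cast this
  have h1 := h (m % Q) (Nat.mod_lt _ hQ0) _ hz
  have h2 : (C d * X ^ (m / Q)) ^ Q * (X ^ (m % Q) * x) = (d ^ Q) • (X ^ m * x) := by
    rw [mul_pow, ← pow_mul, smul_eq_C_mul, C_pow]
    have : (X : K[X]) ^ m = X ^ (m / Q * Q) * X ^ (m % Q) := by
      rw [← pow_add, mul_comm, Nat.div_add_mod]
    rw [this]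
    ring
  rw [h2, map_smul, hd, smul_eq_mul, div_mul_cancel₀ _ hne] at h1
  exact h1

/-- If the first `D` monomials annihilate `x`, all polynomials of degree `< D` do. -/
theorem ann_of (A : K[X] →ₗ[K] K) (D : ℕ) (x : K[X]) (h : ∀ m < D, A (X ^ m * x) = 0) (y : K[X])
    (hy : y ∈ V K D) : A (y * x) = 0 := by
  rw [y.as_sum_range, Finset.sum_mul, map_sum]
  refine Finset.sum_eq_zero (fun m _ => ?_)
  by_cases hc : y.coeff m = 0
  · rw [hc, monomial_zero_right, zero_mul, map_zero]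
  · rw [mem_V] at hy
    have h1 : m < D := by
      have h2 := le_degree_of_ne_zero hc
      exact_mod_cast h2.trans_lt hy
    rw [← C_mul_X_pow_eq_monomial, mul_assoc, ← smul_eq_C_mul, map_smul, h m h1, smul_zero]

/-- The number of elements of `W`, for a large denominator. -/
theorem card_W' {Q : ℕ} (hQ : PQ K Q) (J : ℕ) : ∃ C : ℕ, ∀ (ψ : AddChar K ℂ), ψ ≠ 1 → ∀ (n D : ℕ) (A : K[X] →ₗ[K] K),
    Nonsing A D → n ≤ D → ((W ψ Q A n n).card) ^ ((Q + 1) * (J + 1)) ≤
      Fintype.card K ^ ((Q + 1) * n + (J + 1) * ((Q - 1) * n) + C + 2 * ((J + 1) * (D - Q * n))) := by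
  obtain ⟨p, j, hp, hchar, hj, hQp⟩ := hQ
  have hQ2 : 2 ≤ Q := by
    rw [hQp]
    calc 2 ≤ p := hp.two_le
      _ = p ^ 1 := (pow_one p).symm
      _ ≤ p ^ j := Nat.pow_le_pow_right hp.pos hj
  have := Fact.mk hp
  have := hchar
  let _ : Algebra (ZMod p) K := ZMod.algebra K p
  obtain ⟨C, hC⟩ := dim_bound' (K := K) hQ2 J
  refine ⟨C, fun ψ hψ n D A hA hnD => ?_⟩
  obtain ⟨l, hl0, hl⟩ := exists_l p ψ hψ
  obtain ⟨β, hβ⟩ := exists_form p j Q hQp l A
  have hVL : ∀ (n : ℕ) (x : K[X]), x ∈ V K n ↔ x ∈ L (ZMod p) K n := by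
    intro n x
    rw [mem_V, mem_L]
  have hfin : FiniteDimensional (ZMod p) K := Module.Finite.of_finite
  have h1 := hC (ZMod p) β (fun c x y => by rw [hβ, hβ, mul_pow]; congr 2; ring) n
  have hLa : finrank (ZMod p) (La β Q n) ≤ (D - Q * n) * finrank (ZMod p) K := by
    let g : La β Q n →ₗ[ZMod p] (Fin (D - Q * n) → K) :=
      LinearMap.pi (fun i => ((A.restrictScalars (ZMod p)) ∘ₗ
        (LinearMap.mulLeft (ZMod p) (X ^ (Q * n + (i : ℕ)) : K[X])) ∘ₗ (La β Q n).subtype))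
    have hg : Function.Injective g := by
      rw [injective_iff_map_eq_zero]
      intro x hx
      have hx1 := (mem_La β).mp x.2
      have hmon := mon_of p Q j hQp l hl0 A n (x : K[X]) (fun i hi z hz => by
        have h2 := hx1.2 i hi z ((hVL n z).mp hz)
        rwa [hβ] at h2)
      have hmon' : ∀ m < D, A (X ^ m * (x : K[X])) = 0 := by
        intro m hm
        rcases Nat.lt_or_ge m (Q * n) with hlt | hge
        · exact hmon m hlt
        · have h3 := congrFun hx ⟨m - Q * n, by omega⟩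
          have h4 : Q * n + (m - Q * n) = m := by omega
          have h5 : A (X ^ (Q * n + (m - Q * n)) * (x : K[X])) = 0 := h3
          rwa [h4] at h5
      have h6 : (x : K[X]) ∈ V K D := by
        have h7 := (hVL n x).mpr hx1.1
        rw [mem_V] at h7 ⊢
        exact h7.trans_le (by exact_mod_cast hnD)
      exact Subtype.ext (hA x h6 (fun y hy => ann_of A D x hmon' y hy))
    have h8 := LinearMap.finrank_le_finrank_of_injective hg
    have h9 := finrank_fun (k := ZMod p) (E := K) (D - Q * n)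
    exact h8.trans_eq h9
  have hfW : Finite (WW β n) := Module.finite_of_finite (ZMod p)
  have h2 : (W ψ Q A n n).card ≤ p ^ finrank (ZMod p) (WW β n) := by
    have h3 : Nat.card (WW β n) = p ^ finrank (ZMod p) (WW β n) := by
      rw [Module.natCard_eq_pow_finrank (K := ZMod p), Nat.card_zmod]
    rw [← h3]
    have hmem : ∀ h ∈ W ψ Q A n n, h ∈ WW β n := by
      intro h hh
      unfold W at hh
      rw [Finset.mem_filter] at hh
      rw [mem_WW]
      refine ⟨(hVL n h).mp hh.1, fun z hz => ?_⟩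
      have h4 := hl _ (hh.2 z ((hVL n z).mpr hz))
      rw [map_add, map_add] at h4
      rw [hβ, hβ]
      rw [mul_comm (h ^ Q) z]
      exact h4
    let f : (W ψ Q A n n) → WW β n := fun h => ⟨h.1, hmem h.1 h.2⟩
    have hf : Function.Injective f := by
      intro a b hab
      have h9 := congrArg (fun t : WW β n => (t : K[X])) hab
      exact Subtype.ext h9
    have h5 := Nat.card_le_card_of_injective f hf
    rwa [Nat.card_eq_fintype_card, Fintype.card_coe] at h5
  have h6 : Fintype.card K = p ^ finrank (ZMod p) K := by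
    have := Module.natCard_eq_pow_finrank (K := ZMod p) (V := K)
    rwa [Nat.card_eq_fintype_card, Nat.card_zmod] at this
  calc ((W ψ Q A n n).card) ^ ((Q + 1) * (J + 1)) ≤ (p ^ finrank (ZMod p) (WW β n)) ^ ((Q + 1) * (J + 1)) :=
        Nat.pow_le_pow_left h2 _
    _ = p ^ ((Q + 1) * ((J + 1) * finrank (ZMod p) (WW β n))) := by
        rw [← pow_mul]
        congr 1
        ring
    _ ≤ p ^ (((Q + 1) * n + (J + 1) * ((Q - 1) * n) + C) * finrank (ZMod p) K +
          2 * ((J + 1) * ((D - Q * n) * finrank (ZMod p) K))) := by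
        refine Nat.pow_le_pow_right hp.pos (h1.trans ?_)
        exact Nat.add_le_add_left (Nat.mul_le_mul_left _ (Nat.mul_le_mul_left _ hLa)) _
    _ = Fintype.card K ^ ((Q + 1) * n + (J + 1) * ((Q - 1) * n) + C + 2 * ((J + 1) * (D - Q * n))) := by
        rw [h6, ← pow_mul]
        congr 1
        ring

/-- The bound for a large denominator. -/
theorem ext {ψ : AddChar K ℂ} {Q : ℕ} (hQ : PQ K Q) (hψ : ψ ≠ 1) (ε : ℝ) (hε : 0 < ε) :
    ∃ C : ℝ, 0 < C ∧ ∀ (n : ℕ) (α : LaurentSeries K) (ξ : K[X] →+ K) (b g : K[X]), IsCoprime b g → g ≠ 0 →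
      n ≤ g.natDegree → Near α b g g.natDegree →
      ‖S ψ Q n (fn α) ξ‖ ≤ C * (Fintype.card K : ℝ) ^
        ((n : ℝ) * (1 - 1 / (Q + 1) + ε) + ((g.natDegree - Q * n : ℕ) : ℝ) / (Q + 1)) := by
  obtain ⟨J, hJ⟩ := exists_nat_one_div_lt (show 0 < 2 * ε by positivity)
  obtain ⟨C, hC⟩ := card_W' (K := K) hQ J
  have hQ1 : 1 ≤ Q := by
    obtain ⟨p, j, hp, _, _, rfl⟩ := hQ
    exact Nat.one_le_pow _ _ hp.pos
  have hq1 : (1 : ℝ) < (Fintype.card K : ℝ) := by exact_mod_cast Fintype.one_lt_card (α := K)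
  have hq0 : (0 : ℝ) < (Fintype.card K : ℝ) := by linarith
  have hJ0 : (0 : ℝ) < (J : ℝ) + 1 := by positivity
  have hQr : (0 : ℝ) < (Q : ℝ) + 1 := by positivity
  set C' : ℝ := (Fintype.card K : ℝ) ^ ((C : ℝ) / ((Q + 1) * (J + 1))) with hC'
  have hC'0 : 0 < C' := by positivity
  refine ⟨Real.sqrt C', Real.sqrt_pos.mpr hC'0, fun n α ξ b g hc hg hn hN => ?_⟩
  have hns : Nonsing (fn α) g.natDegree := Pool.Agent.H527.WS.lau K α b g hc hg hN
  have h1 := hC ψ hψ n g.natDegree (fn α) hns hn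
  set lam := g.natDegree - Q * n with hlam
  have e0 : (n : ℝ) * (1 - 1 / (Q + 1) + ε) + (lam : ℝ) / (Q + 1) =
      (n : ℝ) - ((n : ℝ) * (1 / (Q + 1) - ε) - (lam : ℝ) / (Q + 1)) := by ring
  rw [e0]
  refine Pool.Agent.H527.WS.norm_le_of_W hQ ξ hC'0 ?_
  set w := (W ψ Q (fn α) n n).card with hw
  have h2 : ((w : ℝ)) ^ ((Q + 1) * (J + 1)) ≤
      (Fintype.card K : ℝ) ^ ((Q + 1) * n + (J + 1) * ((Q - 1) * n) + C + 2 * ((J + 1) * lam)) := by
    exact_mod_cast h1
  set m : ℕ := (Q + 1) * (J + 1) with hm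
  have hm0 : m ≠ 0 := by rw [hm]; positivity
  have hmr : (m : ℝ) = ((Q : ℝ) + 1) * (J + 1) := by rw [hm]; push_cast; ring
  have h3 : (w : ℝ) ≤ (Fintype.card K : ℝ) ^
      ((((Q + 1) * n + (J + 1) * ((Q - 1) * n) + C + 2 * ((J + 1) * lam) : ℕ) : ℝ) / m) := by
    refine le_of_pow_le_pow_left₀ hm0 (by positivity) ?_
    rw [← Real.rpow_natCast (_ ^ _) m, ← Real.rpow_mul hq0.le, div_mul_cancel₀ _ (by exact_mod_cast hm0),
      Real.rpow_natCast]
    exact h2
  refine h3.trans ?_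
  rw [hC', ← Real.rpow_add hq0]
  refine Real.rpow_le_rpow_of_exponent_le hq1.le ?_
  rw [hmr]
  push_cast [Nat.cast_sub hQ1]
  have e1 : (((Q : ℝ) + 1) * n + (J + 1) * ((Q - 1) * n) + C + 2 * ((J + 1) * lam)) / ((Q + 1) * (J + 1))
      = C / ((Q + 1) * (J + 1)) + (n * (1 - 2 / (Q + 1)) + 2 * (lam / (Q + 1)) + n * (1 / (J + 1))) := by
    field_simp
    ring
  rw [e1]
  have e2 : (n : ℝ) * (1 / (J + 1)) ≤ n * (2 * ε) := mul_le_mul_of_nonneg_left hJ.le (Nat.cast_nonneg n)
  have e3 : (n : ℝ) * (2 / (Q + 1)) = 2 * (n * (1 / (Q + 1))) := by ring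
  nlinarith [e2, e3]

end Pool.Agent.H614.HK
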