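import Pool.Agent.H614.HK.Core
import Pool.Agent.H527.WS.Fin

/-! # Weyl sums over `F_q[t]`, exponent `1/k`: the bound -/

set_option autoImplicit false

open Polynomial Module

namespace Pool.Agent.H614.HK

open Pool.Agent.H527.WS (V W Nonsing PQ mem_V S fn Near)

variable {K : Type} [Field K] [Fintype K]

/-- The bound with the exponent `1/k` for all leading coefficients. -/
theorem fin {ψ : AddChar K ℂ} {Q : ℕ} (hQ : PQ K Q) (hψ : ψ ≠ 1) (ε : ℝ) (hε : 0 < ε) :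
    ∃ C : ℝ, 0 < C ∧ ∀ (n : ℕ) (α : LaurentSeries K) (ξ : K[X] →+ K) (b g : K[X]), IsCoprime b g → g ≠ 0 →
      g.natDegree ≤ n → Near α b g g.natDegree →
      ‖S ψ Q n (fn α) ξ‖ ≤ C * (Fintype.card K : ℝ) ^ ((n : ℝ) - (1 / (Q + 1) - ε) * g.natDegree) := by
  obtain ⟨C, hC, h⟩ := core hQ ψ hψ (2 * ε) (by positivity)
  have hq1 : (1 : ℝ) < (Fintype.card K : ℝ) := by exact_mod_cast Fintype.one_lt_card (α := K)
  have hq0 : (0 : ℝ) < (Fintype.card K : ℝ) := by linarith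
  refine ⟨Real.sqrt C, Real.sqrt_pos.mpr hC, fun n α ξ b g hc hg hn hN => ?_⟩
  refine Pool.Agent.H527.WS.norm_le_of_W hQ ξ hC ?_
  set D := g.natDegree with hD
  have hns : Nonsing (fn α) D := Pool.Agent.H527.WS.lau K α b g hc hg hN
  have h1 := h D (fn α) hns
  have h2 := Pool.Agent.H527.WS.shr K ψ Q D n n (fn α) hQ hn
  have h3 : W ψ Q (fn α) D n ⊆ W ψ Q (fn α) D D := by
    intro x hx
    unfold W at hx ⊢
    rw [Finset.mem_filter] at hx ⊢
    refine ⟨hx.1, fun y hy => hx.2 y ?_⟩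
    rw [mem_V] at hy ⊢
    exact hy.trans_le (by exact_mod_cast hn)
  have h4 : (W ψ Q (fn α) n n).card ≤ Fintype.card K ^ (n - D) * (W ψ Q (fn α) D D).card :=
    h2.trans (Nat.mul_le_mul_left _ (Finset.card_le_card h3))
  have h5 : ((W ψ Q (fn α) n n).card : ℝ) ≤ (Fintype.card K : ℝ) ^ (n - D) * ((W ψ Q (fn α) D D).card : ℝ) := by
    exact_mod_cast h4
  refine h5.trans ((mul_le_mul_of_nonneg_left h1 (by positivity)).trans (le_of_eq ?_))
  rw [← Real.rpow_natCast _ (n - D), mul_left_comm, ← Real.rpow_add hq0]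
  congr 2
  push_cast [Nat.cast_sub hn]
  ring

end Pool.Agent.H614.HK
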