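import Mathlib

/-! # Weyl sums over `F_q[t]`, exponent `1/k`: linear algebra -/

set_option autoImplicit false

open Polynomial Module

namespace Pool.Agent.H614.HK

section general

variable {k E D : Type} [Field k] [AddCommGroup E] [Module k E] [AddCommGroup D] [Module k D]

theorem gl0 (g : E →ₗ[k] D) (U : Submodule k E) [FiniteDimensional k U] :
    finrank k (U.map g) + finrank k (U ⊓ LinearMap.ker g : Submodule k E) = finrank k U := by
  have h := LinearMap.finrank_range_add_finrank_ker (g.domRestrict U)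
  rw [LinearMap.range_domRestrict] at h
  have h2 : LinearMap.ker (g.domRestrict U) = (U ⊓ LinearMap.ker g).comap U.subtype := by
    ext x
    simp [LinearMap.mem_ker]
  rw [h2, (Submodule.comapSubtypeEquivOfLe (inf_le_left : U ⊓ LinearMap.ker g ≤ U)).finrank_eq] at h
  exact h

theorem gl1 (g : E →ₗ[k] D) {U U' : Submodule k E} (h : U ≤ U') [FiniteDimensional k U'] :
    finrank k (U'.map g) + finrank k U ≤ finrank k (U.map g) + finrank k U' := by
  have : FiniteDimensional k U := Submodule.finiteDimensional_of_le h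
  have h1 := gl0 g U
  have h2 := gl0 g U'
  have h3 : finrank k (U ⊓ LinearMap.ker g : Submodule k E) ≤
      finrank k (U' ⊓ LinearMap.ker g : Submodule k E) := by
    have : FiniteDimensional k (U' ⊓ LinearMap.ker g : Submodule k E) :=
      Submodule.finiteDimensional_of_le inf_le_left
    exact Submodule.finrank_mono (inf_le_inf_right _ h)
  omega

theorem gl2 {P A C : Submodule k E} (hP : P ≤ C) (hA : A ≤ C) [FiniteDimensional k C] :
    finrank k P + finrank k A ≤ finrank k (P ⊓ A : Submodule k E) + finrank k C := by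
  have : FiniteDimensional k P := Submodule.finiteDimensional_of_le hP
  have : FiniteDimensional k A := Submodule.finiteDimensional_of_le hA
  have h := Submodule.finrank_sup_add_finrank_inf_eq P A
  have h2 : finrank k (P ⊔ A : Submodule k E) ≤ finrank k C := Submodule.finrank_mono (sup_le hP hA)
  omega

theorem gb (b : E →ₗ[k] D) (S : Submodule k E) [FiniteDimensional k S] {T T' : Submodule k D} (h : T ≤ T')
    [FiniteDimensional k T'] :
    finrank k (S ⊓ T'.comap b : Submodule k E) + finrank k T ≤
      finrank k (S ⊓ T.comap b : Submodule k E) + finrank k T' := by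
  have : FiniteDimensional k (S ⊓ T'.comap b : Submodule k E) := Submodule.finiteDimensional_of_le inf_le_left
  have : FiniteDimensional k (S ⊓ T.comap b : Submodule k E) := Submodule.finiteDimensional_of_le inf_le_left
  have h1 := gl0 b (S ⊓ T'.comap b)
  have h2 := gl0 b (S ⊓ T.comap b)
  have h3 : (S ⊓ T'.comap b) ⊓ LinearMap.ker b = (S ⊓ T.comap b) ⊓ LinearMap.ker b := by
    ext x
    simp only [Submodule.mem_inf, Submodule.mem_comap, LinearMap.mem_ker]
    constructor
    · rintro ⟨⟨h1, _⟩, h2⟩
      exact ⟨⟨h1, by rw [h2]; exact T.zero_mem⟩, h2⟩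
    · rintro ⟨⟨h1, _⟩, h2⟩
      exact ⟨⟨h1, by rw [h2]; exact T'.zero_mem⟩, h2⟩
  have h4 : (S ⊓ T'.comap b).map b ⊓ T = (S ⊓ T.comap b).map b := by
    ext x
    simp only [Submodule.mem_inf, Submodule.mem_map, Submodule.mem_comap]
    constructor
    · rintro ⟨⟨y, ⟨hy1, hy2⟩, rfl⟩, hx⟩
      exact ⟨y, ⟨hy1, hx⟩, rfl⟩
    · rintro ⟨y, ⟨hy1, hy2⟩, rfl⟩
      exact ⟨⟨y, ⟨hy1, h hy2⟩, rfl⟩, hy2⟩
  have h5 : (S ⊓ T'.comap b).map b ≤ T' := by
    rintro _ ⟨y, hy, rfl⟩
    exact hy.2
  have h6 := gl2 h5 h
  rw [h4] at h6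
  rw [h3] at h1
  omega

end general

variable {k K : Type} [Field k] [Field K] [Algebra k K] [FiniteDimensional k K]

variable (k K) in
/-- The polynomials of degree `< n`. -/
noncomputable def L (n : ℕ) : Submodule k K[X] := (degreeLT K n).restrictScalars k

omit [FiniteDimensional k K] in
theorem mem_L {n : ℕ} {x : K[X]} : x ∈ L k K n ↔ x.degree < n := by
  unfold L
  rw [Submodule.restrictScalars_mem, Polynomial.mem_degreeLT]

instance fin_L (n : ℕ) : FiniteDimensional k (L k K n) := by
  have e := (Polynomial.degreeLTEquiv K n).restrictScalars k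
  exact LinearEquiv.finiteDimensional (V := Fin n → K) (V₂ := L k K n) e.symm

omit [FiniteDimensional k K] in
theorem finrank_L [FiniteDimensional k K] (n : ℕ) : finrank k (L k K n) = n * finrank k K := by
  have e := (Polynomial.degreeLTEquiv K n).restrictScalars k
  have h : finrank k (L k K n) = finrank k (Fin n → K) := LinearEquiv.finrank_eq e
  rw [h, Module.finrank_pi_fintype]
  simp

omit [FiniteDimensional k K] in
theorem L_mono {n m : ℕ} (h : n ≤ m) : L k K n ≤ L k K m := fun x hx => by
  rw [mem_L] at hx ⊢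
  exact hx.trans_le (by exact_mod_cast h)

omit [FiniteDimensional k K] in
theorem mul_L {n d : ℕ} {c x : K[X]} (hc : c.natDegree ≤ d) (hx : x ∈ L k K n) : c * x ∈ L k K (n + d) := by
  by_cases hx0 : x = 0
  · rw [hx0, mul_zero]; exact Submodule.zero_mem _
  rw [mem_L] at hx ⊢
  rw [Polynomial.degree_eq_natDegree hx0] at hx
  have hx' : x.natDegree < n := by exact_mod_cast hx
  refine (Polynomial.degree_le_natDegree).trans_lt ?_
  have := Polynomial.natDegree_mul_le (p := c) (q := x)
  exact_mod_cast (by omega : (c * x).natDegree < n + d)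

omit [FiniteDimensional k K] in
theorem L_zero {x : K[X]} (hx : x ∈ L k K 0) : x = 0 := by
  rw [mem_L] at hx
  by_contra h
  rw [Polynomial.degree_eq_natDegree h] at hx
  have : x.natDegree < 0 := by exact_mod_cast hx
  omega

variable (β : K[X] →ₗ[k] K[X] →ₗ[k] k)

/-- `x ↦ β(x, ·)` on the polynomials of degree `< M`. -/
noncomputable def bm (M : ℕ) : K[X] →ₗ[k] Module.Dual k (L k K M) := (L k K M).dualRestrict ∘ₗ β

/-- `y ↦ β(·, y)` on the polynomials of degree `< M`. -/
noncomputable def am (M : ℕ) : K[X] →ₗ[k] Module.Dual k (L k K M) := (L k K M).dualRestrict ∘ₗ β.flip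

omit [FiniteDimensional k K] in
@[simp] theorem bm_apply (M : ℕ) (x : K[X]) (z : L k K M) : bm β M x z = β x z := rfl

omit [FiniteDimensional k K] in
@[simp] theorem am_apply (M : ℕ) (x : K[X]) (z : L k K M) : am β M x z = β z x := rfl

/-- One step of the chain. -/
noncomputable def step (N M : ℕ) (Y : Submodule k K[X]) : Submodule k K[X] :=
  L k K N ⊓ (Y.map (am β M)).comap (bm β M)

omit [FiniteDimensional k K] in
theorem mem_step {N M : ℕ} {Y : Submodule k K[X]} {x : K[X]} :
    x ∈ step β N M Y ↔ x ∈ L k K N ∧ ∃ y ∈ Y, ∀ z ∈ L k K M, β x z = β z y := by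
  unfold step
  rw [Submodule.mem_inf, Submodule.mem_comap, Submodule.mem_map]
  refine and_congr Iff.rfl (exists_congr fun y => and_congr Iff.rfl ?_)
  constructor
  · intro h z hz
    have := LinearMap.congr_fun h ⟨z, hz⟩
    simpa using this.symm
  · intro h
    ext z
    simpa using (h z z.2).symm

omit [FiniteDimensional k K] in
theorem step_mono {N M N' M' : ℕ} {Y Y' : Submodule k K[X]} (hN : N ≤ N') (hM : M' ≤ M) (hY : Y ≤ Y') :
    step β N M Y ≤ step β N' M' Y' := by
  intro x hx
  rw [mem_step] at hx ⊢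
  obtain ⟨h1, y, hy, h2⟩ := hx
  exact ⟨L_mono hN h1, y, hY hy, fun z hz => h2 z (L_mono hM hz)⟩

/-- Restriction of functionals. -/
noncomputable def rs {M' M : ℕ} (h : M' ≤ M) : Module.Dual k (L k K M) →ₗ[k] Module.Dual k (L k K M') :=
  (Submodule.inclusion (L_mono h)).dualMap

omit [FiniteDimensional k K] in
theorem rs_apply {M' M : ℕ} (h : M' ≤ M) (u : Module.Dual k (L k K M)) (z : L k K M') :
    rs h u z = u (Submodule.inclusion (L_mono h) z) := by
  unfold rs
  rw [LinearMap.dualMap_apply]

theorem finrank_ker_res {M' M : ℕ} (h : M' ≤ M) :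
    finrank k (LinearMap.ker (rs (k := k) (K := K) h)) = (M - M') * finrank k K := by
  have h1 := LinearMap.finrank_range_add_finrank_ker (rs (k := k) (K := K) h)
  have h2 : LinearMap.range (rs (k := k) (K := K) h) = ⊤ :=
    LinearMap.range_eq_top.mpr (LinearMap.dualMap_surjective_of_injective (Submodule.inclusion_injective _))
  rw [h2, finrank_top, Subspace.dual_finrank_eq, Subspace.dual_finrank_eq, finrank_L, finrank_L] at h1
  rw [Nat.sub_mul]
  omega

omit [FiniteDimensional k K] in
theorem step_sup {N M M' : ℕ} {Y : Submodule k K[X]} (hM : M' ≤ M) :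
    step β N M' Y = L k K N ⊓ (Y.map (am β M) ⊔ LinearMap.ker (rs hM)).comap (bm β M) := by
  ext x
  rw [mem_step, Submodule.mem_inf, Submodule.mem_comap]
  refine and_congr Iff.rfl ?_
  constructor
  · rintro ⟨y, hy, h⟩
    rw [Submodule.mem_sup]
    refine ⟨am β M y, Submodule.mem_map_of_mem hy, bm β M x - am β M y, ?_, by abel⟩
    rw [LinearMap.mem_ker]
    refine LinearMap.ext fun z => ?_
    rw [rs_apply, LinearMap.sub_apply, bm_apply, am_apply, Submodule.coe_inclusion, h z z.2, sub_self,
      LinearMap.zero_apply]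
  · intro h
    rw [Submodule.mem_sup] at h
    obtain ⟨v, ⟨y, hy, rfl⟩, u, hu, hyu⟩ := h
    refine ⟨y, hy, fun z hz => ?_⟩
    rw [LinearMap.mem_ker] at hu
    have h1 : rs hM u ⟨z, hz⟩ = 0 := by rw [hu, LinearMap.zero_apply]
    rw [rs_apply] at h1
    have h2 : (am β M y + u) (Submodule.inclusion (L_mono hM) ⟨z, hz⟩) =
      bm β M x (Submodule.inclusion (L_mono hM) ⟨z, hz⟩) := by rw [hyu]
    rw [LinearMap.add_apply, h1, add_zero, am_apply, bm_apply, Submodule.coe_inclusion] at h2
    exact h2.symm

theorem step_lip {N M N' M' : ℕ} {Y Y' : Submodule k K[X]} (hN : N ≤ N') (hM : M' ≤ M) (hY : Y ≤ Y')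
    [FiniteDimensional k Y'] :
    finrank k (step β N' M' Y') + finrank k Y ≤
      finrank k (step β N M Y) + finrank k Y' + (N' - N) * finrank k K + (M - M') * finrank k K := by
  have : FiniteDimensional k Y := Submodule.finiteDimensional_of_le hY
  have h1 := gb (bm β M) (L k K N') (T := Y.map (am β M)) (T' := Y'.map (am β M) ⊔ LinearMap.ker (rs hM))
    ((Submodule.map_mono hY).trans le_sup_left)
  rw [← step_sup] at h1
  have h2 : finrank k (Y'.map (am β M) ⊔ LinearMap.ker (rs hM) : Submodule k _) ≤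
      finrank k (Y'.map (am β M)) + (M - M') * finrank k K := by
    rw [← finrank_ker_res (k := k) (K := K) hM]
    exact Submodule.finrank_add_le_finrank_add_finrank _ _
  have h3 := gl1 (am β M) hY
  have h4 := gl2 (P := L k K N' ⊓ (Y.map (am β M)).comap (bm β M)) (A := L k K N) (C := L k K N')
    inf_le_left (L_mono hN)
  have e2 : (L k K N' ⊓ (Y.map (am β M)).comap (bm β M)) ⊓ L k K N = step β N M Y := by
    unfold step
    ext x
    simp only [Submodule.mem_inf]
    constructor
    · rintro ⟨⟨_, h⟩, h'⟩; exact ⟨h', h⟩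
    · rintro ⟨h', h⟩; exact ⟨⟨L_mono hN h', h⟩, h'⟩
  rw [e2, finrank_L, finrank_L] at h4
  have h5 : (N' - N) * finrank k K = N' * finrank k K - N * finrank k K := Nat.sub_mul _ _ _
  have h6 : N * finrank k K ≤ N' * finrank k K := Nat.mul_le_mul_right _ hN
  omega

/-- The chain `B_j`. -/
noncomputable def Bc (N M : ℕ) : ℕ → Submodule k K[X]
  | 0 => ⊥
  | j + 1 => step β N M (Bc N M j)

omit [FiniteDimensional k K] in
theorem Bc_le (N M j : ℕ) : Bc β N M j ≤ L k K N := by
  cases j with
  | zero => exact bot_le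
  | succ j => exact inf_le_left

instance fin_Bc (N M j : ℕ) : FiniteDimensional k (Bc β N M j) :=
  Submodule.finiteDimensional_of_le (Bc_le β N M j)

omit [FiniteDimensional k K] in
theorem Bc_mono {N M N' M' : ℕ} (hN : N ≤ N') (hM : M' ≤ M) (j : ℕ) : Bc β N M j ≤ Bc β N' M' j := by
  induction j with
  | zero => exact le_refl _
  | succ j ih => exact step_mono β hN hM ih

omit [FiniteDimensional k K] in
theorem Bc_succ (N M j : ℕ) : Bc β N M j ≤ Bc β N M (j + 1) := by
  induction j with
  | zero => exact bot_le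
  | succ j ih => exact step_mono β le_rfl le_rfl ih

omit [FiniteDimensional k K] in
theorem Bc_mono_j (N M : ℕ) {i j : ℕ} (h : i ≤ j) : Bc β N M i ≤ Bc β N M j :=
  monotone_nat_of_le_succ (Bc_succ β N M) h

theorem Bc_lip {N M N' M' : ℕ} (hN : N ≤ N') (hM : M' ≤ M) (j : ℕ) :
    finrank k (Bc β N' M' j) ≤ finrank k (Bc β N M j) + j * (((N' - N) + (M - M')) * finrank k K) := by
  induction j with
  | zero =>
    have h1 : Bc β N' M' 0 = ⊥ := rfl
    rw [h1, finrank_bot]
    exact Nat.zero_le _
  | succ j ih =>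
    have h := step_lip β hN hM (Bc_mono β hN hM j)
    change finrank k (step β N' M' (Bc β N' M' j)) ≤ finrank k (step β N M (Bc β N M j)) + _
    have e : (j + 1) * (((N' - N) + (M - M')) * finrank k K) =
      j * (((N' - N) + (M - M')) * finrank k K) + (N' - N) * finrank k K + (M - M') * finrank k K := by ring
    omega

end Pool.Agent.H614.HK
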