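import Mathlib

/-! # Weyl sums over `F_q[t]`, exponent `1/k`: irreducible polynomials of large degree; real inequalities -/

set_option autoImplicit false

open Polynomial

namespace Pool.Agent.H614.HK

theorem exists_irr (K : Type) [Field K] [Fintype K] (m : ℕ) :
    ∃ P : K[X], P.Monic ∧ Irreducible P ∧ m < P.natDegree := by
  classical
  -- all polynomials of degree `≤ m`
  let B : Finset K[X] := Finset.univ.image (fun c : Fin (m + 1) → K => ∑ i : Fin (m + 1), C (c i) * X ^ (i : ℕ))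
  have hB : ∀ P : K[X], P.natDegree ≤ m → P ∈ B := by
    intro P hP
    rw [Finset.mem_image]
    refine ⟨fun i => P.coeff i, Finset.mem_univ _, ?_⟩
    conv_rhs => rw [P.as_sum_range' (m + 1) (by omega)]
    rw [← Fin.sum_univ_eq_sum_range (fun i => monomial i (P.coeff i)) (m + 1)]
    refine Finset.sum_congr rfl (fun i _ => ?_)
    rw [C_mul_X_pow_eq_monomial]
  set R : K[X] := ∏ y ∈ B.filter (fun y => y ≠ 0), y with hR
  have hR0 : R ≠ 0 := by
    rw [hR, Finset.prod_ne_zero_iff]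
    intro y hy
    exact (Finset.mem_filter.mp hy).2
  have hdeg : 0 < (X * R + 1 : K[X]).degree := by
    have h1 : (X * R : K[X]).degree = 1 + R.degree := by rw [degree_mul, degree_X]
    have h2 : (1 : WithBot ℕ) ≤ 1 + R.degree := by
      have h3 : (0 : WithBot ℕ) ≤ R.degree := zero_le_degree_iff.mpr hR0
      calc (1 : WithBot ℕ) = 1 + 0 := by rw [add_zero]
        _ ≤ 1 + R.degree := by gcongr
    have h4 : (1 : K[X]).degree < (X * R : K[X]).degree := by
      rw [degree_one, h1]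
      exact lt_of_lt_of_le (by norm_num) h2
    rw [degree_add_eq_left_of_degree_lt h4, h1]
    exact lt_of_lt_of_le (by norm_num) h2
  obtain ⟨g, hg, hgd⟩ := exists_irreducible_of_degree_pos hdeg
  have hg0 : g ≠ 0 := hg.ne_zero
  have hu : IsUnit (C (leadingCoeff g)⁻¹ : K[X]) := by
    rw [isUnit_C]
    exact (isUnit_iff_ne_zero).mpr (inv_ne_zero (leadingCoeff_ne_zero.mpr hg0))
  have hass : Associated g (g * C (leadingCoeff g)⁻¹) := ⟨hu.unit, by rw [IsUnit.unit_spec]⟩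
  refine ⟨g * C (leadingCoeff g)⁻¹, monic_mul_leadingCoeff_inv hg0, hass.irreducible hg, ?_⟩
  by_contra hle
  push Not at hle
  set P := g * C (leadingCoeff g)⁻¹ with hP
  have hPi : Irreducible P := hass.irreducible hg
  have h1 : P ∣ R := by
    rw [hR]
    exact Finset.dvd_prod_of_mem (fun y => y) (Finset.mem_filter.mpr ⟨hB P hle, hPi.ne_zero⟩)
  have h2 : P ∣ X * R + 1 := (hass.dvd_iff_dvd_left).mp hgd
  have h3 : P ∣ 1 := by
    have h4 : P ∣ X * R := Dvd.dvd.mul_left h1 X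
    exact (dvd_add_right h4).mp h2
  exact hPi.not_isUnit (isUnit_of_dvd_one h3)

/-- The inequality with an exponent `η ≤ 1/k`. -/
theorem ineq_up (q : ℝ) (hq : 1 < q) (k n D : ℕ) (η ε C : ℝ) (hε : 0 < ε) (hC : 0 ≤ C) (hη : 0 ≤ η)
    (hηk : η ≤ 1 / k) (hD : D ≤ n) :
    C * q ^ ((n : ℝ) - (1 / k - ε) * D) ≤
      C * ((q ^ n) ^ (1 + ε) * (1 / q ^ D + 1 / q ^ n + q ^ D / (q ^ n) ^ k) ^ η) := by
  have hq0 : 0 < q := by linarith
  refine mul_le_mul_of_nonneg_left ?_ hC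
  have h1 : (q ^ n : ℝ) ^ (1 + ε) = q ^ ((n : ℝ) * (1 + ε)) := by
    rw [Real.rpow_mul hq0.le, Real.rpow_natCast]
  have h2 : q ^ (-(D : ℝ) * η) ≤ (1 / q ^ D + 1 / q ^ n + q ^ D / (q ^ n) ^ k) ^ η := by
    rw [Real.rpow_mul hq0.le]
    refine Real.rpow_le_rpow (by positivity) ?_ hη
    have : q ^ (-(D : ℝ)) = 1 / q ^ D := by rw [Real.rpow_neg hq0.le, Real.rpow_natCast, one_div]
    rw [this]
    have h3 : 0 ≤ 1 / q ^ n := by positivity
    have h4 : 0 ≤ q ^ D / (q ^ n) ^ k := by positivity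
    linarith
  calc q ^ ((n : ℝ) - (1 / k - ε) * D) ≤ q ^ ((n : ℝ) * (1 + ε) + -(D : ℝ) * η) := by
        refine Real.rpow_le_rpow_of_exponent_le hq.le ?_
        have h5 : (D : ℝ) ≤ n := by exact_mod_cast hD
        have h6 : (0 : ℝ) ≤ D := Nat.cast_nonneg D
        have h7 : (D : ℝ) * η ≤ D * (1 / k) := mul_le_mul_of_nonneg_left hηk h6
        have h8 : ε * D ≤ ε * n := mul_le_mul_of_nonneg_left h5 hε.le
        nlinarith
    _ = q ^ ((n : ℝ) * (1 + ε)) * q ^ (-(D : ℝ) * η) := Real.rpow_add hq0 _ _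
    _ ≤ _ := by
        rw [h1]
        exact mul_le_mul_of_nonneg_left h2 (by positivity)

/-- The inequality fails for `η > 1/k` if the sums have size `q^(n - m)`, `n = k m`. -/
theorem ineq_down (q : ℝ) (hq : 1 < q) (k : ℕ) (hk : 2 ≤ k) (η C : ℝ) (hη : 1 / k < η) :
    ∃ m₀ : ℕ, ∀ m : ℕ, m₀ < m →
      C * ((q ^ (k * m)) ^ (1 + (η - 1 / k) / 2) *
        (1 / q ^ (k * m) + 1 / q ^ (k * m) + q ^ (k * m) / (q ^ (k * m)) ^ k) ^ η) < q ^ (k * m - m) := by
  have hq0 : 0 < q := by linarith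
  set ε := (η - 1 / k) / 2 with hε
  have hε0 : 0 < ε := by rw [hε]; linarith
  have hk0 : (0 : ℝ) < k := by exact_mod_cast (by omega : 0 < k)
  have hη0 : 0 ≤ η := le_trans (by positivity) hη.le
  obtain ⟨m₀, hm₀⟩ : ∃ m₀ : ℕ, |C| * 3 ^ η < (q ^ (k * ε)) ^ m₀ :=
    pow_unbounded_of_one_lt _ (Real.one_lt_rpow hq (by positivity))
  refine ⟨m₀, fun m hm => ?_⟩
  set n := k * m with hn
  have hnr : (n : ℝ) = k * m := by rw [hn]; push_cast; ring
  have h1 : (q ^ n : ℝ) ^ (1 + ε) = q ^ ((n : ℝ) * (1 + ε)) := by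
    rw [Real.rpow_mul hq0.le, Real.rpow_natCast]
  have h2 : q ^ n / (q ^ n) ^ k ≤ 1 / q ^ n := by
    rw [div_le_div_iff₀ (by positivity) (by positivity), one_mul, ← sq]
    refine pow_le_pow_right₀ ?_ hk
    exact one_le_pow₀ hq.le
  have h3 : (1 / q ^ n + 1 / q ^ n + q ^ n / (q ^ n) ^ k) ^ η ≤ 3 ^ η * q ^ (-(n : ℝ) * η) := by
    rw [Real.rpow_mul hq0.le, ← Real.mul_rpow (by norm_num) (by positivity)]
    refine Real.rpow_le_rpow (by positivity) ?_ hη0
    have : q ^ (-(n : ℝ)) = 1 / q ^ n := by rw [Real.rpow_neg hq0.le, Real.rpow_natCast, one_div]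
    rw [this]
    linarith
  have h4 : (q : ℝ) ^ (k * m - m : ℕ) = q ^ ((n : ℝ) * (1 - 1 / k)) := by
    rw [← Real.rpow_natCast]
    congr 1
    have : m ≤ k * m := Nat.le_mul_of_pos_left _ (by omega)
    rw [Nat.cast_sub this, hnr]
    field_simp
  rw [h4, h1]
  have h5 : |C| * 3 ^ η < q ^ ((n : ℝ) * ε) := by
    refine hm₀.trans_le ?_
    have : q ^ ((n : ℝ) * ε) = (q ^ (k * ε)) ^ m := by
      rw [hnr, ← Real.rpow_natCast (q ^ (k * ε)) m, ← Real.rpow_mul hq0.le]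
      congr 1
      ring
    rw [this]
    exact pow_le_pow_right₀ (Real.one_lt_rpow hq (by positivity)).le hm.le
  calc C * (q ^ ((n : ℝ) * (1 + ε)) * (1 / q ^ n + 1 / q ^ n + q ^ n / (q ^ n) ^ k) ^ η)
      ≤ |C| * (q ^ ((n : ℝ) * (1 + ε)) * (3 ^ η * q ^ (-(n : ℝ) * η))) := by
        refine mul_le_mul (le_abs_self C) (mul_le_mul_of_nonneg_left h3 (by positivity)) (by positivity)
          (abs_nonneg C)
    _ = (|C| * 3 ^ η) * q ^ ((n : ℝ) * (1 + ε) + -(n : ℝ) * η) := by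
        rw [Real.rpow_add hq0]; ring
    _ < q ^ ((n : ℝ) * ε) * q ^ ((n : ℝ) * (1 + ε) + -(n : ℝ) * η) :=
        mul_lt_mul_of_pos_right h5 (Real.rpow_pos_of_pos hq0 _)
    _ = q ^ ((n : ℝ) * (1 - 1 / k)) := by
        rw [← Real.rpow_add hq0]
        congr 1
        rw [hε]
        ring

end Pool.Agent.H614.HK
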