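import Mathlib

/-! # Weyl sums over `F_q[t]`, exponent `1/k`: a real inequality -/

set_option autoImplicit false

namespace Pool.Agent.H614.HK

theorem ineq_ext (q : ℝ) (hq : 1 < q) (k n D : ℕ) (hk : 1 ≤ k) (ε : ℝ) :
    q ^ ((n : ℝ) * (1 - 1 / k + ε) + ((D - (k - 1) * n : ℕ) : ℝ) / k) ≤
      (q ^ n) ^ (1 + ε) * (1 / q ^ D + 1 / q ^ n + q ^ D / (q ^ n) ^ k) ^ ((1 : ℝ) / k) := by
  have hq0 : 0 < q := by linarith
  have hk0 : (0 : ℝ) < k := by exact_mod_cast hk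
  have h1 : (q ^ n : ℝ) ^ (1 + ε) = q ^ ((n : ℝ) * (1 + ε)) := by
    rw [Real.rpow_mul hq0.le, Real.rpow_natCast]
  rw [h1]
  have hD : 0 ≤ 1 / q ^ D := by positivity
  have hn : 0 ≤ 1 / q ^ n := by positivity
  have hDn : 0 ≤ q ^ D / (q ^ n) ^ k := by positivity
  rcases Nat.le_total D ((k - 1) * n) with hle | hge
  · have h0 : D - (k - 1) * n = 0 := by omega
    rw [h0]
    have h2 : q ^ (-(n : ℝ) * (1 / k)) ≤ (1 / q ^ D + 1 / q ^ n + q ^ D / (q ^ n) ^ k) ^ ((1 : ℝ) / k) := by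
      rw [Real.rpow_mul hq0.le]
      refine Real.rpow_le_rpow (by positivity) ?_ (by positivity)
      have : q ^ (-(n : ℝ)) = 1 / q ^ n := by rw [Real.rpow_neg hq0.le, Real.rpow_natCast, one_div]
      rw [this]
      linarith
    calc q ^ ((n : ℝ) * (1 - 1 / k + ε) + ((0 : ℕ) : ℝ) / k)
        = q ^ ((n : ℝ) * (1 + ε)) * q ^ (-(n : ℝ) * (1 / k)) := by
          rw [← Real.rpow_add hq0]
          congr 1
          push_cast
          ring
      _ ≤ _ := mul_le_mul_of_nonneg_left h2 (by positivity)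
  · have h2 : q ^ (((D : ℝ) - n * k) * (1 / k)) ≤
        (1 / q ^ D + 1 / q ^ n + q ^ D / (q ^ n) ^ k) ^ ((1 : ℝ) / k) := by
      rw [Real.rpow_mul hq0.le]
      refine Real.rpow_le_rpow (by positivity) ?_ (by positivity)
      have : q ^ ((D : ℝ) - n * k) = q ^ D / (q ^ n) ^ k := by
        rw [Real.rpow_sub hq0, Real.rpow_natCast, Real.rpow_mul hq0.le, Real.rpow_natCast, Real.rpow_natCast]
      rw [this]
      linarith
    have h3 : ((D - (k - 1) * n : ℕ) : ℝ) = (D : ℝ) - (k - 1) * n := by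
      rw [Nat.cast_sub hge, Nat.cast_mul, Nat.cast_sub hk, Nat.cast_one]
    calc q ^ ((n : ℝ) * (1 - 1 / k + ε) + ((D - (k - 1) * n : ℕ) : ℝ) / k)
        = q ^ ((n : ℝ) * (1 + ε)) * q ^ (((D : ℝ) - n * k) * (1 / k)) := by
          rw [← Real.rpow_add hq0, h3]
          congr 1
          field_simp
          ring
      _ ≤ _ := mul_le_mul_of_nonneg_left h2 (by positivity)

end Pool.Agent.H614.HK
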